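import Pool.Agent.NG.Norm

/-!
Algebraic part of the no-construction theorem (MP_1b7df1_nt, helper56).
-/

open Polynomial

namespace NG

/-- A subgroup of the units of `K` (as a predicate) which contains the nonzero elements of `F`
and all cubes. -/
structure Grp (F : Type*) {K : Type*} [Field F] [Field K] [Algebra F K] (G : K → Prop) : Prop where
  ne : ∀ a, G a → a ≠ 0
  mul : ∀ a b, G a → G b → G (a * b)
  cube : ∀ a, a ≠ 0 → G (a ^ 3)
  base : ∀ a : F, a ≠ 0 → G (algebraMap F K a)

variable {F K : Type*} [Field F] [Field K] [Algebra F K] {G : K → Prop}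

theorem Grp.one (hG : Grp F G) : G 1 := by
  have := hG.base 1 one_ne_zero
  rwa [map_one] at this

theorem Grp.inv (hG : Grp F G) {a : K} (ha : G a) : G a⁻¹ := by
  have h0 := hG.ne a ha
  have h1 := hG.mul _ _ (hG.mul _ _ ha ha) (hG.cube a⁻¹ (inv_ne_zero h0))
  have e : a * a * a⁻¹ ^ 3 = a⁻¹ := by field_simp
  rwa [e] at h1

theorem Grp.of_mul (hG : Grp F G) {a b : K} (ha : G a) (hab : G (a * b)) : G b := by
  have h0 := hG.ne a ha
  have := hG.mul _ _ (hG.inv ha) hab
  rwa [← mul_assoc, inv_mul_cancel₀ h0, one_mul] at this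

/-- The descent: if `P R = E q^3 - 2 h^3` and no common irreducible factor of `P, q, h` divides
`R`, then `P(s)` is the leading coefficient of `P` times an element of the group. -/
theorem descent [CharZero K] (hG : Grp F G) (E : K[X]) (s : K)
    (hN : ∀ π u : K[X], π.Monic → Irreducible π → π ∣ E - 2 * u ^ 3 → π.eval s ≠ 0 →
      G (π.eval s)) :
    ∀ n : ℕ, ∀ P R q h : K[X], P.natDegree ≤ n → P * R = E * q ^ 3 - 2 * h ^ 3 →
      (∀ π : K[X], Irreducible π → π ∣ P → π ∣ q → π ∣ h → ¬ π ∣ R) → P.eval s ≠ 0 →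
      G (P.eval s * P.leadingCoeff⁻¹) := by
  intro n
  induction n using Nat.strong_induction_on with
  | _ n ih =>
  intro P R q h hdeg hPR hcop hPs
  have hP0 : P ≠ 0 := by
    rintro rfl
    simp at hPs
  by_cases hu : IsUnit P
  · obtain ⟨c, hc, rfl⟩ := Polynomial.isUnit_iff.mp hu
    have : c ≠ 0 := hc.ne_zero
    rw [eval_C, leadingCoeff_C, mul_inv_cancel₀ this]
    exact hG.one
  obtain ⟨π, hπm, hπi, hπP⟩ := Polynomial.exists_monic_irreducible_factor P hu
  have hprime : Prime π := hπi.prime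
  have hπdeg : 0 < π.natDegree := hπi.natDegree_pos
  by_cases hq : π ∣ q
  · -- then `π` divides `h`, and `π ^ 3` divides `P`
    have hh : π ∣ h := by
      have h1 : π ∣ 2 * h ^ 3 := by
        have e : 2 * h ^ 3 = E * q ^ 3 - P * R := by rw [hPR]; ring
        rw [e]
        refine dvd_sub ?_ ?_
        · exact Dvd.dvd.mul_left (dvd_pow hq (by norm_num)) _
        · exact Dvd.dvd.mul_right hπP _
      rcases hprime.dvd_or_dvd h1 with h2 | h2
      · exfalso
        have hunit : IsUnit (2 : K[X]) := by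
          have : (2 : K[X]) = C 2 := (map_ofNat C 2).symm
          rw [this]
          exact Polynomial.isUnit_C.mpr (IsUnit.mk0 _ two_ne_zero)
        exact hπi.not_isUnit (isUnit_of_dvd_unit h2 hunit)
      · exact hprime.dvd_of_dvd_pow h2
    have hR : ¬ π ∣ R := hcop π hπi hπP hq hh
    obtain ⟨q1, rfl⟩ := hq
    obtain ⟨h1, rfl⟩ := hh
    have h3 : π ^ 3 ∣ P * R := by
      rw [hPR]
      exact ⟨E * q1 ^ 3 - 2 * h1 ^ 3, by ring⟩
    have h3P : π ^ 3 ∣ P := hprime.pow_dvd_of_dvd_mul_right 3 hR h3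
    obtain ⟨P1, rfl⟩ := h3P
    have hπ0 : π ≠ 0 := hπm.ne_zero
    have hP10 : P1 ≠ 0 := right_ne_zero_of_mul hP0
    have hPR1 : P1 * R = E * q1 ^ 3 - 2 * h1 ^ 3 := by
      have h30 : π ^ 3 ≠ 0 := pow_ne_zero 3 hπ0
      apply mul_left_cancel₀ h30
      rw [← mul_assoc, hPR]
      ring
    rw [eval_mul, eval_pow] at hPs
    have hπs : π.eval s ≠ 0 := by
      intro h0
      rw [h0] at hPs
      simp at hPs
    have hP1s : P1.eval s ≠ 0 := right_ne_zero_of_mul hPs
    have hd : (π ^ 3 * P1).natDegree = 3 * π.natDegree + P1.natDegree := by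
      rw [natDegree_mul (pow_ne_zero 3 hπ0) hP10, natDegree_pow]
    have hi := ih (P1.natDegree) (by omega) P1 R q1 h1 le_rfl hPR1 (by
      intro ρ hρ a b c
      exact hcop ρ hρ (Dvd.dvd.mul_left a _) (Dvd.dvd.mul_left b _) (Dvd.dvd.mul_left c _)) hP1s
    have hlc : (π ^ 3 * P1).leadingCoeff = P1.leadingCoeff := by
      rw [leadingCoeff_mul, leadingCoeff_pow, hπm.leadingCoeff]
      simp
    rw [hlc, eval_mul, eval_pow, mul_assoc]
    exact hG.mul _ _ (hG.cube _ hπs) hi
  · -- `π` does not divide `q`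
    have hcopr : IsCoprime π q := (hπi.coprime_iff_not_dvd).mpr hq
    obtain ⟨a, b, hab⟩ := hcopr
    have hdvd : π ∣ E - 2 * (h * b) ^ 3 := by
      have h1 : π ∣ (E * q ^ 3 - 2 * h ^ 3) * b ^ 3 := by
        rw [← hPR]
        exact Dvd.dvd.mul_right (Dvd.dvd.mul_right hπP _) _
      have h2 : π ∣ E * (1 - (b * q) ^ 3) := by
        have e : b * q = 1 - a * π := by rw [← hab]; ring
        rw [e]
        exact ⟨E * (3 * a - 3 * a ^ 2 * π + a ^ 3 * π ^ 2), by ring⟩
      have e : E - 2 * (h * b) ^ 3 = (E * q ^ 3 - 2 * h ^ 3) * b ^ 3 + E * (1 - (b * q) ^ 3) := by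
        ring
      rw [e]
      exact dvd_add h1 h2
    obtain ⟨P1, rfl⟩ := hπP
    have hπ0 : π ≠ 0 := hπm.ne_zero
    have hP10 : P1 ≠ 0 := right_ne_zero_of_mul hP0
    rw [eval_mul] at hPs
    have hπs : π.eval s ≠ 0 := left_ne_zero_of_mul hPs
    have hP1s : P1.eval s ≠ 0 := right_ne_zero_of_mul hPs
    have hd : (π * P1).natDegree = π.natDegree + P1.natDegree := natDegree_mul hπ0 hP10
    have hi := ih (P1.natDegree) (by omega) P1 (π * R) q h le_rfl (by rw [← hPR]; ring) (by
      intro ρ hρ ha hb hc hd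
      rcases hρ.prime.dvd_or_dvd hd with h1 | h1
      · exact hq ((hρ.dvd_symm hπi h1).trans hb)
      · exact hcop ρ hρ (Dvd.dvd.mul_left ha _) hb hc h1) hP1s
    have hlc : (π * P1).leadingCoeff = P1.leadingCoeff := by
      rw [leadingCoeff_mul, hπm.leadingCoeff, one_mul]
    rw [hlc, eval_mul, mul_assoc]
    exact hG.mul _ _ (hN π _ hπm hπi hdvd hπs) hi

/-- The element `x + w y`. -/
def lin (w : K) (x y : F) : K := algebraMap F K x + w * algebraMap F K y

theorem lin_mul (w : K) (l x y : F) : lin w (l * x) (l * y) = algebraMap F K l * lin w x y := by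
  simp only [lin, map_mul]; ring

/-- Division by the greatest common divisor of four polynomials. -/
theorem exists_coprime (f g h q : F[X]) (hne : ¬ (f = 0 ∧ g = 0 ∧ h = 0 ∧ q = 0)) :
    ∃ d f' g' h' q' a b c e : F[X], d ≠ 0 ∧ f = d * f' ∧ g = d * g' ∧ h = d * h' ∧ q = d * q' ∧
      a * f' + b * g' + c * h' + e * q' = 1 := by
  classical
  let d1 := EuclideanDomain.gcd f g
  let d2 := EuclideanDomain.gcd h q
  let d := EuclideanDomain.gcd d1 d2
  obtain ⟨f', hf⟩ : d ∣ f := (EuclideanDomain.gcd_dvd_left _ _).trans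
    (EuclideanDomain.gcd_dvd_left _ _)
  obtain ⟨g', hg⟩ : d ∣ g := (EuclideanDomain.gcd_dvd_left _ _).trans
    (EuclideanDomain.gcd_dvd_right _ _)
  obtain ⟨h', hh⟩ : d ∣ h := (EuclideanDomain.gcd_dvd_right _ _).trans
    (EuclideanDomain.gcd_dvd_left _ _)
  obtain ⟨q', hq⟩ : d ∣ q := (EuclideanDomain.gcd_dvd_right _ _).trans
    (EuclideanDomain.gcd_dvd_right _ _)
  have hd0 : d ≠ 0 := by
    intro h0
    rw [h0, zero_mul] at hf hg hh hq
    exact hne ⟨hf, hg, hh, hq⟩
  have e1 : d1 = f * EuclideanDomain.gcdA f g + g * EuclideanDomain.gcdB f g :=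
    EuclideanDomain.gcd_eq_gcd_ab f g
  have e2 : d2 = h * EuclideanDomain.gcdA h q + q * EuclideanDomain.gcdB h q :=
    EuclideanDomain.gcd_eq_gcd_ab h q
  have e3 : d = d1 * EuclideanDomain.gcdA d1 d2 + d2 * EuclideanDomain.gcdB d1 d2 :=
    EuclideanDomain.gcd_eq_gcd_ab d1 d2
  refine ⟨d, f', g', h', q', EuclideanDomain.gcdA f g * EuclideanDomain.gcdA d1 d2,
    EuclideanDomain.gcdB f g * EuclideanDomain.gcdA d1 d2,
    EuclideanDomain.gcdA h q * EuclideanDomain.gcdB d1 d2,
    EuclideanDomain.gcdB h q * EuclideanDomain.gcdB d1 d2, hd0, hf, hg, hh, hq, ?_⟩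
  apply mul_left_cancel₀ hd0
  rw [mul_one]
  generalize EuclideanDomain.gcdA d1 d2 = A at *
  generalize EuclideanDomain.gcdB d1 d2 = B at *
  generalize EuclideanDomain.gcdA f g = a1 at *
  generalize EuclideanDomain.gcdB f g = b1 at *
  generalize EuclideanDomain.gcdA h q = a2 at *
  generalize EuclideanDomain.gcdB h q = b2 at *
  linear_combination (-a1 * A) * hf - b1 * A * hg - a2 * B * hh - b2 * B * hq - e3 - A * e1
    - B * e2

/-- The common part of the two descents. -/
theorem descent_pair [CharZero K] (hG : Grp F G) (w : K) (hw : w ^ 2 + w + 1 = 0) (E : F[X])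
    (s : F)
    (hN : ∀ π u : K[X], π.Monic → Irreducible π → π ∣ E.map (algebraMap F K) - 2 * u ^ 3 →
      π.eval (algebraMap F K s) ≠ 0 → G (π.eval (algebraMap F K s)))
    (f g h q a b c e : F[X]) (hid : f ^ 3 + g ^ 3 + 2 * h ^ 3 = E * q ^ 3)
    (hbez : a * f + b * g + c * h + e * q = 1) (hs : lin w (f.eval s) (g.eval s) ≠ 0) :
    G (lin w (f.eval s) (g.eval s) *
      (f.map (algebraMap F K) + C w * g.map (algebraMap F K)).leadingCoeff⁻¹) := by
  set φ := algebraMap F K with hφ
  set P : K[X] := f.map φ + C w * g.map φ with hP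
  set P0 : K[X] := f.map φ + g.map φ with hP0
  set P2 : K[X] := f.map φ + C (w ^ 2) * g.map φ with hP2
  have hid' : (f.map φ) ^ 3 + (g.map φ) ^ 3 + 2 * (h.map φ) ^ 3 = E.map φ * (q.map φ) ^ 3 := by
    have := congrArg (Polynomial.map φ) hid
    simpa [Polynomial.map_add, Polynomial.map_mul, Polynomial.map_pow, Polynomial.map_ofNat]
      using this
  have hbez' : a.map φ * f.map φ + b.map φ * g.map φ + c.map φ * h.map φ + e.map φ * q.map φ
      = 1 := by
    have := congrArg (Polynomial.map φ) hbez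
    simpa [Polynomial.map_add, Polynomial.map_mul] using this
  have hev : P.eval (φ s) = lin w (f.eval s) (g.eval s) := by
    rw [hP, eval_add, eval_mul, eval_C, eval_map, eval_map, eval₂_at_apply, eval₂_at_apply]
    rfl
  have cw : (C w : K[X]) ^ 2 + C w + 1 = 0 := by
    rw [← C_pow, ← C_add, ← C_1, ← C_add, hw, C_0]
  have key := descent hG (E.map φ) (φ s) hN P.natDegree P (P0 * P2) (q.map φ) (h.map φ) le_rfl
    (by
      have e1 : E.map φ * (q.map φ) ^ 3 - 2 * (h.map φ) ^ 3 = (f.map φ) ^ 3 + (g.map φ) ^ 3 := by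
        rw [← hid']; ring
      rw [e1, hP, hP0, hP2, C_pow]
      generalize (C w : K[X]) = v at cw
      generalize f.map φ = x
      generalize g.map φ = y
      linear_combination (x ^ 2 * y + v * x * y ^ 2 + (v - 1) * y ^ 3) * cw)
    (by
      intro π hπ h1 h2 h3 h4
      have hw1 : IsUnit (C (w - 1) : K[X]) := by
        refine Polynomial.isUnit_C.mpr (IsUnit.mk0 _ ?_)
        intro h0
        have h5 : w = 1 := by linear_combination h0
        rw [h5] at hw
        norm_num at hw
      have hw2 : IsUnit (C (w ^ 2 - w) : K[X]) := by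
        refine Polynomial.isUnit_C.mpr (IsUnit.mk0 _ ?_)
        intro h0
        have h5 : 2 * w + 1 = 0 := by linear_combination hw - h0
        have h6 : (3 : K) = 0 := by linear_combination 4 * hw - (2 * w + 1) * h5
        norm_num at h6
      have hg : π ∣ g.map φ := by
        rcases hπ.prime.dvd_or_dvd h4 with h5 | h5
        · have h6 : π ∣ C (w - 1) * g.map φ := by
            have e1 : C (w - 1) * g.map φ = P - P0 := by
              rw [hP, hP0, C_sub, C_1]; ring
            rw [e1]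
            exact dvd_sub h1 h5
          exact (IsUnit.dvd_mul_left hw1).mp h6
        · have h6 : π ∣ C (w ^ 2 - w) * g.map φ := by
            have e1 : C (w ^ 2 - w) * g.map φ = P2 - P := by
              rw [hP, hP2, C_sub]; ring
            rw [e1]
            exact dvd_sub h5 h1
          exact (IsUnit.dvd_mul_left hw2).mp h6
      have hf : π ∣ f.map φ := by
        have e1 : f.map φ = P - C w * g.map φ := by rw [hP]; ring
        rw [e1]
        exact dvd_sub h1 (Dvd.dvd.mul_left hg _)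
      have : π ∣ 1 := by
        rw [← hbez']
        exact dvd_add (dvd_add (dvd_add (Dvd.dvd.mul_left hf _) (Dvd.dvd.mul_left hg _))
          (Dvd.dvd.mul_left h3 _)) (Dvd.dvd.mul_left h2 _)
      exact hπ.not_isUnit (isUnit_of_dvd_one this))
    (by rw [hev]; exact hs)
  rwa [hev] at key

end NG
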