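import Pool.Agent.NG.Loc

/-!
The class of points at infinity and the consequences for integral points
(MP_1b7df1_nt, helper56).
-/

namespace NG

variable {p : ℕ} [hp : Fact p.Prime]

theorem one_add_w_inv [Fact (∀ r : ℚ_[p], r ^ 2 ≠ -1 + -1 * r)] : (1 + wK : EK p)⁻¹ = -wK := by
  apply inv_eq_of_mul_eq_one_right
  linear_combination (-1) * (wK_eq (p := p))

theorem lin_int [Fact (∀ r : ℚ_[p], r ^ 2 ≠ -1 + -1 * r)] (a b : ℤ_[p]) :
    lin (wK : EK p) (a : ℚ_[p]) (b : ℚ_[p]) = iota p (algebraMap _ _ a + wR * algebraMap _ _ b) := by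
  rw [map_add, map_mul, iota_int, iota_int, iota_wR]
  rfl

/-- If `a + w b = (1 + w) lam^j (± 1 + p y)` for integral `a, b`, the class is trivial. -/
theorem Gp_of_int [Fact (∀ r : ℚ_[p], r ^ 2 ≠ -1 + -1 * r)] {lam : ER p} (a b : ℤ_[p])
    (j : ℕ) (s y : ER p) (hs : s = 1 ∨ s = -1)
    (h : algebraMap _ (ER p) a + wR * algebraMap _ _ b
      = (1 + wR) * (s * (lam ^ j * (1 + (p : ER p) * y)))) :
    Gp lam (lin (wK : EK p) (a : ℚ_[p]) (b : ℚ_[p]) * (1 + wK)⁻¹) := by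
  have e : lin (wK : EK p) (a : ℚ_[p]) (b : ℚ_[p]) * (1 + wK)⁻¹
      = algebraMap _ _ (1 : ℚ_[p]) * iota p (s * (lam ^ j * (1 + p * y))) := by
    rw [lin_int, h, one_add_w_inv, map_mul, map_add, map_one, iota_wR, map_one]
    linear_combination (-1 * iota p (s * (lam ^ j * (1 + p * y)))) * (wK_eq (p := p))
  rw [e]
  exact Gp_of_sign 1 one_ne_zero j s y hs

theorem scale_class [Fact (∀ r : ℚ_[p], r ^ 2 ≠ -1 + -1 * r)] {lam : ER p} (a b c : ℚ_[p])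
    (hid : a ^ 3 + b ^ 3 + 2 * c ^ 3 = 0) (hne : ¬ (a = 0 ∧ b = 0 ∧ c = 0))
    (h : ∀ a b c : ℤ_[p], a ^ 3 + b ^ 3 + 2 * c ^ 3 = 0 → (a = 1 ∨ b = 1 ∨ c = 1) →
      Gp lam (lin (wK : EK p) (a : ℚ_[p]) (b : ℚ_[p]) * (1 + wK)⁻¹)) :
    Gp lam (lin (wK : EK p) a b * (1 + wK)⁻¹) := by
  obtain ⟨d, u, hd, hu, i, hi⟩ := scale_fin ![a, b, c] (by
    by_contra hcon
    simp only [not_exists, not_not] at hcon
    exact hne ⟨hcon 0, hcon 1, hcon 2⟩)
  have ha : a = d * (u 0 : ℚ_[p]) := hu 0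
  have hb : b = d * (u 1 : ℚ_[p]) := hu 1
  have hc : c = d * (u 2 : ℚ_[p]) := hu 2
  obtain ⟨e, j, y, he, hy⟩ := h (u 0) (u 1) (u 2) (by
    apply PadicInt.ext
    push_cast
    have h1 : d ^ 3 * ((u 0 : ℚ_[p]) ^ 3 + (u 1 : ℚ_[p]) ^ 3 + 2 * (u 2 : ℚ_[p]) ^ 3) = 0 := by
      rw [← hid, ha, hb, hc]; ring
    rcases mul_eq_zero.mp h1 with h2 | h2
    · exact absurd h2 (pow_ne_zero 3 hd)
    · exact h2) (by
    fin_cases i
    · exact Or.inl hi
    · exact Or.inr (Or.inl hi)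
    · exact Or.inr (Or.inr hi))
  refine ⟨d * e, j, y, mul_ne_zero hd he, ?_⟩
  rw [ha, hb, lin_mul, mul_assoc, hy, map_mul (algebraMap ℚ_[p] (EK p)) d e, mul_assoc]

/-! ### The prime two -/

theorem two_ne_one_add (x : ℤ_[2]) (h : (1 : ℤ_[2]) = 2 * x) : False :=
  not_dvd_one (p := 2) ⟨x, by rw [h]; norm_num⟩

theorem lead_two (a b c : ℚ_[2]) (hid : a ^ 3 + b ^ 3 + 2 * c ^ 3 = 0)
    (hne : ¬ (a = 0 ∧ b = 0 ∧ c = 0)) :
    Gp (1 : ER 2) (lin (wK : EK 2) a b * (1 + wK)⁻¹) := by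
  refine scale_class a b c hid hne ?_
  intro a b c hid h1
  have h20 : (2 : ℤ_[2]) ≠ 0 := two_ne_zero
  obtain ⟨r, hr⟩ := two_res a
  obtain ⟨s, hs⟩ := two_res b
  rcases hr with rfl | rfl <;> rcases hs with rfl | rfl
  · exfalso
    rcases h1 with h | h | h
    · exact two_ne_one_add _ h.symm
    · exact two_ne_one_add _ h.symm
    · subst h
      refine two_ne_one_add (-2 * (r ^ 3 + s ^ 3)) ?_
      apply mul_left_cancel₀ h20
      linear_combination hid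
  · exfalso
    refine two_ne_one_add (-(4 * r ^ 3 + 3 * s + 6 * s ^ 2 + 4 * s ^ 3 + c ^ 3)) ?_
    linear_combination hid
  · exfalso
    refine two_ne_one_add (-(4 * s ^ 3 + 3 * r + 6 * r ^ 2 + 4 * r ^ 3 + c ^ 3)) ?_
    linear_combination hid
  · refine Gp_of_int (1 + 2 * r) (1 + 2 * s) 0 1
      (-wR * (algebraMap _ _ r + wR * algebraMap _ _ s)) (Or.inl rfl) ?_
    have e : ∀ t : ℤ_[2], algebraMap ℤ_[2] (ER 2) (1 + 2 * t) = 1 + 2 * algebraMap _ _ t := by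
      intro t
      rw [map_add, map_mul, map_one, alg2]
    rw [e, e, Nat.cast_ofNat]
    linear_combination (2 * (algebraMap ℤ_[2] (ER 2) r + wR * algebraMap ℤ_[2] (ER 2) s)) *
      (wR_eq (p := 2))

/-- Integral points of the trivial class, at two. -/
theorem int_two (x y : ℤ_[2])
    (h : Gp (1 : ER 2) (lin (wK : EK 2) (x : ℚ_[2]) (y : ℚ_[2]) * (1 + wK)⁻¹)) :
    (2 : ℤ_[2]) ∣ x - y := by
  obtain ⟨c, j, z, hc, hz⟩ := h
  have h1 : lin (wK : EK 2) (x : ℚ_[2]) (y : ℚ_[2])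
      = algebraMap _ _ c * iota 2 ((1 + wR) * (1 + 2 * z)) := by
    have h2 := congrArg (fun t => t * (1 + wK)) hz
    have h3 : (1 + wK : EK 2) ≠ 0 := by
      intro h0
      have := one_add_w_inv (p := 2)
      rw [h0, inv_zero] at this
      have h4 := wK_eq (p := 2)
      have h5 : (wK : EK 2) = 0 := by linear_combination this
      rw [h5] at h4
      norm_num at h4
    simp only [mul_assoc, inv_mul_cancel₀ h3, mul_one, one_pow, one_mul] at h2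
    have h6 : iota 2 (1 + wR) = 1 + wK := by rw [map_add, map_one, iota_wR]
    rw [h2, map_mul, h6, Nat.cast_ofNat]
    ring
  obtain ⟨⟨r, s⟩, hrs⟩ : ∃ t : ER 2, t = (1 + wR) * z := ⟨_, rfl⟩
  have h2 : (1 + wR) * (1 + 2 * z) = (⟨1 + 2 * r, 1 + 2 * s⟩ : ER 2) := by
    have h3 : (1 + wR) * (1 + 2 * z) = 1 + wR + 2 * (⟨r, s⟩ : ER 2) := by
      rw [hrs]; ring
    rw [h3]
    ext
    · simp [wR, re2, im2, re1]
    · simp [wR, re2, im2, im1]
  rw [h2, lin_eq] at h1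
  have hx : (x : ℚ_[2]) = c * ((1 + 2 * r : ℤ_[2]) : ℚ_[2]) := by
    have := congrArg QuadraticAlgebra.re h1
    simpa [iota_re, iota_im] using this
  have hy : (y : ℚ_[2]) = c * ((1 + 2 * s : ℤ_[2]) : ℚ_[2]) := by
    have := congrArg QuadraticAlgebra.im h1
    simpa [iota_re, iota_im] using this
  have hu : ‖((1 + 2 * r : ℤ_[2]) : ℚ_[2])‖ = 1 := by
    rw [← PadicInt.norm_def]
    refine le_antisymm (PadicInt.norm_le_one _) ?_
    rw [← not_lt, PadicInt.norm_lt_one_iff_dvd]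
    rintro ⟨t, ht⟩
    refine two_ne_one_add (t - r) ?_
    push_cast at ht
    linear_combination ht
  have hcn : ‖c‖ ≤ 1 := by
    have h3 := congrArg norm hx
    rw [norm_mul, hu, mul_one] at h3
    rw [← h3, ← PadicInt.norm_def]
    exact PadicInt.norm_le_one _
  obtain ⟨c', rfl⟩ : ∃ R : ℤ_[2], (R : ℚ_[2]) = c := ⟨⟨c, hcn⟩, rfl⟩
  refine ⟨c' * (r - s), ?_⟩
  apply PadicInt.ext
  push_cast at hx hy ⊢
  linear_combination hx - hy

end NG
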