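import Pool.Agent.NG.Cls

/-!
The class of points at infinity and the consequences for integral points, at three
(MP_1b7df1_nt, helper56).
-/

namespace NG

theorem dvd_int {n : ℤ} (m : ℕ) (h : (3 : ℤ_[3]) ^ m ∣ (n : ℤ_[3])) : (3 : ℤ) ^ m ∣ n := by
  have h1 : ‖(n : ℤ_[3])‖ ≤ ((3 : ℕ) : ℝ) ^ (-m : ℤ) := by
    rw [PadicInt.norm_le_pow_iff_mem_span_pow, Ideal.mem_span_singleton]
    exact_mod_cast h
  have := PadicInt.norm_int_le_pow_iff_dvd.mp h1
  exact_mod_cast this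

theorem dvd_int9 {n : ℤ} (h : (9 : ℤ_[3]) ∣ (n : ℤ_[3])) : (9 : ℤ) ∣ n := by
  have := dvd_int (n := n) 2 (by norm_num; exact h)
  norm_num at this
  exact this

theorem dvd_int3 {n : ℤ} (h : (3 : ℤ_[3]) ∣ (n : ℤ_[3])) : (3 : ℤ) ∣ n := by
  have := dvd_int (n := n) 1 (by norm_num; exact h)
  norm_num at this
  exact this

theorem cube_res (x : ℤ_[3]) : ∃ (e : ℤ) (r t : ℤ_[3]), (e = 0 ∨ e = 1 ∨ e = -1) ∧
    x = e + 3 * r ∧ x ^ 3 = e + 9 * t := by
  obtain ⟨y, h | h | h⟩ := three_res x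
  · exact ⟨0, y, 3 * y ^ 3, Or.inl rfl, by rw [h]; push_cast; ring, by rw [h]; push_cast; ring⟩
  · exact ⟨1, y, y + 3 * y ^ 2 + 3 * y ^ 3, Or.inr (Or.inl rfl), by rw [h]; push_cast; ring,
      by rw [h]; push_cast; ring⟩
  · exact ⟨-1, y, y - 3 * y ^ 2 + 3 * y ^ 3, Or.inr (Or.inr rfl), by rw [h]; push_cast; ring,
      by rw [h]; push_cast; ring⟩

/-- The final congruence at three. -/
theorem final_three (x y z : ℤ_[3]) (h : 3 ∣ x - y ∨ 3 ∣ x + y) :
    ¬ (9 ∣ (x ^ 3 + y ^ 3 + 2 * z ^ 3) - 1 ∨ 9 ∣ (x ^ 3 + y ^ 3 + 2 * z ^ 3) + 1) := by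
  obtain ⟨e1, r1, t1, he1, hx, hx3⟩ := cube_res x
  obtain ⟨e2, r2, t2, he2, hy, hy3⟩ := cube_res y
  obtain ⟨e3, r3, t3, he3, hz, hz3⟩ := cube_res z
  have h0 : (3 : ℤ) ∣ e1 - e2 ∨ (3 : ℤ) ∣ e1 + e2 := by
    rcases h with ⟨u, hu⟩ | ⟨u, hu⟩
    · left
      apply dvd_int3
      refine ⟨u - r1 + r2, ?_⟩
      push_cast
      rw [hx, hy] at hu
      linear_combination hu
    · right
      apply dvd_int3
      refine ⟨u - r1 - r2, ?_⟩
      push_cast
      rw [hx, hy] at hu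
      linear_combination hu
  rintro (⟨u, hu⟩ | ⟨u, hu⟩)
  · have h1 : (9 : ℤ) ∣ e1 + e2 + 2 * e3 - 1 := by
      apply dvd_int9
      refine ⟨u - t1 - t2 - 2 * t3, ?_⟩
      push_cast
      rw [hx3, hy3, hz3] at hu
      linear_combination hu
    omega
  · have h1 : (9 : ℤ) ∣ e1 + e2 + 2 * e3 + 1 := by
      apply dvd_int9
      refine ⟨u - t1 - t2 - 2 * t3, ?_⟩
      push_cast
      rw [hx3, hy3, hz3] at hu
      linear_combination hu
    omega

theorem lead_three (a b c : ℚ_[3]) (hid : a ^ 3 + b ^ 3 + 2 * c ^ 3 = 0)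
    (hne : ¬ (a = 0 ∧ b = 0 ∧ c = 0)) :
    Gp lam3 (lin (wK : EK 3) a b * (1 + wK)⁻¹) := by
  refine scale_class a b c hid hne ?_
  clear hne hid a b c
  intro a b c hid h1
  obtain ⟨e1, r1, t1, he1, hx, hx3⟩ := cube_res a
  obtain ⟨e2, r2, t2, he2, hy, hy3⟩ := cube_res b
  obtain ⟨e3, r3, t3, he3, hz, hz3⟩ := cube_res c
  have h2 : (9 : ℤ) ∣ e1 + e2 + 2 * e3 := by
    apply dvd_int9
    refine ⟨- t1 - t2 - 2 * t3, ?_⟩
    push_cast
    rw [hx3, hy3, hz3] at hid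
    linear_combination hid
  have h3 : e1 + e2 + 2 * e3 = 0 := by omega
  have h4 : ¬ (e1 = 0 ∧ e2 = 0 ∧ e3 = 0) := by
    rintro ⟨rfl, rfl, rfl⟩
    have key : ∀ x r : ℤ_[3], x = 1 → x = ((0 : ℤ) : ℤ_[3]) + 3 * r → False := by
      intro x r h5 h6
      apply not_dvd_one (p := 3)
      exact ⟨r, by rw [← h5, h6]; push_cast; ring⟩
    rcases h1 with h | h | h
    · exact key _ _ h hx
    · exact key _ _ h hy
    · exact key _ _ h hz
  have hw := wR_eq (p := 3)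
  have hl := lam3_sq
  have eA : ∀ (e : ℤ) (r : ℤ_[3]), algebraMap ℤ_[3] (ER 3) (e + 3 * r)
      = (e : ER 3) + 3 * algebraMap _ _ r := by
    intro e r
    rw [map_add, map_mul, alg3, map_intCast]
  by_cases h5 : e1 = e2
  · -- the case of equal residues
    subst h5
    have h6 : e1 = 1 ∨ e1 = -1 := by omega
    refine Gp_of_int a b 0 (e1 : ER 3)
      ((e1 : ER 3) * (-wR * (algebraMap _ _ r1 + wR * algebraMap _ _ r2))) ?_ ?_
    · rcases h6 with rfl | rfl
      · left; simp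
      · right; simp
    · have h7 : (e1 : ER 3) ^ 2 = 1 := by
        rcases h6 with rfl | rfl <;> norm_num
      rw [hx, hy, eA, eA, Nat.cast_ofNat]
      linear_combination (3 * (algebraMap ℤ_[3] (ER 3) r1 + wR * algebraMap ℤ_[3] (ER 3) r2)) *
        hw * (e1 : ER 3) ^ 2 +
        (-3 * (algebraMap ℤ_[3] (ER 3) r1 + wR * algebraMap ℤ_[3] (ER 3) r2)) * h7
  · -- opposite residues
    have h6 : e3 = 0 ∧ e1 = -e2 ∧ (e2 = 1 ∨ e2 = -1) := by omega
    obtain ⟨rfl, rfl, h6⟩ := h6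
    -- `a + b` is divisible by nine
    have h7 : (9 : ℤ_[3]) ∣ a + b := by
      set t := r1 + r2 with ht
      have h8 : a = -b + 3 * t := by rw [hx, hy, ht]; push_cast; ring
      have h9 : t * (b ^ 2 - 3 * t * b + 3 * t ^ 2) = 3 * (-2 * r3 ^ 3) := by
        have h10 : (9 : ℤ_[3]) ≠ 0 := by simp
        apply mul_left_cancel₀ h10
        rw [h8, hz] at hid
        push_cast at hid
        linear_combination hid
      have h11 : b ^ 2 = 1 + 3 * (2 * e2 * r2 + 3 * r2 ^ 2) := by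
        rw [hy]
        rcases h6 with rfl | rfl
        · push_cast; ring
        · push_cast; ring
      refine ⟨-2 * r3 ^ 3 - t * (2 * e2 * r2 + 3 * r2 ^ 2 - t * b + t ^ 2), ?_⟩
      rw [h8]
      linear_combination 3 * h9 - 3 * t * h11
    obtain ⟨t, ht⟩ := h7
    refine Gp_of_int a b 1 (e2 : ER 3)
      ((e2 : ER 3) * (algebraMap _ _ r2 + lam3 * wR * algebraMap _ _ t)) ?_ ?_
    · rcases h6 with rfl | rfl
      · left; simp
      · right; simp
    · have h7 : (e2 : ER 3) ^ 2 = 1 := by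
        rcases h6 with rfl | rfl <;> norm_num
      have h8 : a = 9 * t - b := by linear_combination ht
      have h9 : algebraMap ℤ_[3] (ER 3) a = 9 * algebraMap _ _ t - algebraMap _ _ b := by
        rw [h8, map_sub, map_mul, alg9]
      rw [h9, hy, eA, Nat.cast_ofNat, pow_one]
      have h10 : (1 + wR) * lam3 = wR - 1 := by
        rw [lam3]
        linear_combination 2 * hw
      have h11 : (1 + wR) * ((e2 : ER 3) * (lam3 * (1 + 3 * ((e2 : ER 3) *
          (algebraMap _ _ r2 + lam3 * wR * algebraMap _ _ t)))))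
          = (wR - 1) * ((e2 : ER 3) + 3 * ((e2 : ER 3) ^ 2 *
          (algebraMap _ _ r2 + lam3 * wR * algebraMap _ _ t))) := by
        linear_combination ((e2 : ER 3) * (1 + 3 * ((e2 : ER 3) *
          (algebraMap _ _ r2 + lam3 * wR * algebraMap _ _ t)))) * h10
      rw [h11, h7]
      rw [lam3]
      linear_combination (9 * algebraMap ℤ_[3] (ER 3) t - 6 * wR * algebraMap ℤ_[3] (ER 3) t) * hw

end NG
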