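import Pool.Agent.NG.Alg

/-!
Parametric solutions, rational curves and chords: the algebraic core (MP_1b7df1_nt, helper56).
-/

open Polynomial

namespace NG

variable {F K : Type*} [Field F] [Field K] [Algebra F K] {G : K → Prop}

/-- The leading coefficients of a solution of `f^3+g^3+2h^3 = X q^3`. -/
theorem lead [CharZero F] (f g h q : F[X]) (hq : q ≠ 0)
    (hid : f ^ 3 + g ^ 3 + 2 * h ^ 3 = X * q ^ 3) :
    ∃ m : ℕ, f.natDegree ≤ m ∧ g.natDegree ≤ m ∧
      f.coeff m ^ 3 + g.coeff m ^ 3 + 2 * h.coeff m ^ 3 = 0 ∧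
      ¬ (f.coeff m = 0 ∧ g.coeff m = 0 ∧ h.coeff m = 0) := by
  set m := max f.natDegree (max g.natDegree h.natDegree) with hm
  have hf : f.natDegree ≤ m := le_max_left _ _
  have hg : g.natDegree ≤ m := (le_max_left _ _).trans (le_max_right _ _)
  have hh : h.natDegree ≤ m := (le_max_right _ _).trans (le_max_right _ _)
  have hlhs : (f ^ 3 + g ^ 3 + 2 * h ^ 3).coeff (3 * m)
      = f.coeff m ^ 3 + g.coeff m ^ 3 + 2 * h.coeff m ^ 3 := by
    have h2 : (2 * h ^ 3 : F[X]).coeff (3 * m) = 2 * (h ^ 3).coeff (3 * m) := by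
      have : (2 : F[X]) = C 2 := (map_ofNat C 2).symm
      rw [this, coeff_C_mul]
    rw [coeff_add, coeff_add, h2, coeff_pow_of_natDegree_le hf, coeff_pow_of_natDegree_le hg,
      coeff_pow_of_natDegree_le hh]
  have hrdeg : (X * q ^ 3 : F[X]).natDegree = 3 * q.natDegree + 1 := by
    rw [natDegree_X_mul (pow_ne_zero 3 hq), natDegree_pow]
  have hldeg : (f ^ 3 + g ^ 3 + 2 * h ^ 3).natDegree ≤ 3 * m := by
    refine natDegree_add_le_of_degree_le (natDegree_add_le_of_degree_le ?_ ?_) ?_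
    · exact (natDegree_pow_le).trans (by omega)
    · exact (natDegree_pow_le).trans (by omega)
    · have : (2 : F[X]) = C 2 := (map_ofNat C 2).symm
      rw [this]
      exact (natDegree_C_mul_le _ _).trans ((natDegree_pow_le).trans (by omega))
  refine ⟨m, hf, hg, ?_, ?_⟩
  · rw [← hlhs, hid]
    apply coeff_eq_zero_of_natDegree_lt
    rw [hid] at hldeg
    omega
  · rintro ⟨h1, h2, h3⟩
    have hcase : f.natDegree = m ∨ g.natDegree = m ∨ h.natDegree = m := by
      rcases max_choice f.natDegree (max g.natDegree h.natDegree) with h4 | h4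
      · left; rw [hm, h4]
      · rcases max_choice g.natDegree h.natDegree with h5 | h5
        · right; left; rw [hm, h4, h5]
        · right; right; rw [hm, h4, h5]
    have hm0 : f = 0 ∨ g = 0 ∨ h = 0 := by
      rcases hcase with h4 | h4 | h4
      · left; rw [← h4] at h1; exact leadingCoeff_eq_zero.mp h1
      · right; left; rw [← h4] at h2; exact leadingCoeff_eq_zero.mp h2
      · right; right; rw [← h4] at h3; exact leadingCoeff_eq_zero.mp h3
    -- then `m = 0` and everything is zero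
    have hm00 : m = 0 := by
      rcases hcase with h4 | h4 | h4
      · rw [← h4] at h1
        rw [← h4, leadingCoeff_eq_zero.mp h1, natDegree_zero]
      · rw [← h4] at h2
        rw [← h4, leadingCoeff_eq_zero.mp h2, natDegree_zero]
      · rw [← h4] at h3
        rw [← h4, leadingCoeff_eq_zero.mp h3, natDegree_zero]
    have hr : (X * q ^ 3 : F[X]).natDegree ≤ 3 * m := by rw [← hid]; exact hldeg
    rw [hrdeg, hm00] at hr
    omega

/-- Parametric solutions with parameter `k`. -/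
theorem family_core [CharZero F] [CharZero K] (hG : Grp F G) (w : K) (hw : w ^ 2 + w + 1 = 0)
    (hind : ∀ x y : F, lin w x y = 0 → x = 0 ∧ y = 0) (k : F)
    (hk : ∀ A B D : K, ¬ (A = 0 ∧ B = 0 ∧ D = 0) → G (nf (algebraMap F K k / 2) A B D))
    (f g h q : F[X]) (hid : f ^ 3 + g ^ 3 + 2 * h ^ 3 = X * q ^ 3)
    (hne : ¬ (f.eval k = 0 ∧ g.eval k = 0 ∧ h.eval k = 0 ∧ q.eval k = 0)) :
    ∃ a b c : F, a ^ 3 + b ^ 3 + 2 * c ^ 3 = 0 ∧ ¬ (a = 0 ∧ b = 0 ∧ c = 0) ∧
      G (lin w (f.eval k) (g.eval k) * (lin w a b)⁻¹) := by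
  by_cases hqq : q = 0
  · subst hqq
    have h1 : (f.eval k) ^ 3 + (g.eval k) ^ 3 + 2 * (h.eval k) ^ 3 = 0 := by
      have := congrArg (eval k) hid
      simpa only [eval_add, eval_pow, eval_mul, eval_ofNat, eval_zero, eval_X,
        zero_pow (three_ne_zero), mul_zero] using this
    have h2 : ¬ (f.eval k = 0 ∧ g.eval k = 0 ∧ h.eval k = 0) := by
      rintro ⟨a, b, c⟩
      exact hne ⟨a, b, c, eval_zero⟩
    refine ⟨f.eval k, g.eval k, h.eval k, h1, h2, ?_⟩
    have h3 : lin w (f.eval k) (g.eval k) ≠ 0 := by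
      intro h0
      obtain ⟨h4, h5⟩ := hind _ _ h0
      rw [h4, h5] at h1
      have h6 : (2 : F) * (h.eval k) ^ 3 = 0 := by linear_combination h1
      rcases mul_eq_zero.mp h6 with h7 | h7
      · exact absurd h7 two_ne_zero
      · exact h2 ⟨h4, h5, pow_eq_zero_iff (by norm_num) |>.mp h7⟩
    rw [mul_inv_cancel₀ h3]
    exact hG.one
  have hne0 : ¬ (f = 0 ∧ g = 0 ∧ h = 0 ∧ q = 0) := by
    rintro ⟨rfl, rfl, rfl, rfl⟩
    exact hne ⟨by simp, by simp, by simp, by simp⟩
  obtain ⟨d, f', g', h', q', a, b, c, e, hd0, rfl, rfl, rfl, rfl, hbez⟩ :=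
    exists_coprime f g h q hne0
  have hid' : f' ^ 3 + g' ^ 3 + 2 * h' ^ 3 = X * q' ^ 3 := by
    apply mul_left_cancel₀ (pow_ne_zero 3 hd0)
    linear_combination hid
  simp only [eval_mul] at hne ⊢
  have hdk : d.eval k ≠ 0 := by
    intro h0
    exact hne ⟨by rw [h0, zero_mul], by rw [h0, zero_mul], by rw [h0, zero_mul],
      by rw [h0, zero_mul]⟩
  have hne' : ¬ (f'.eval k = 0 ∧ g'.eval k = 0 ∧ h'.eval k = 0 ∧ q'.eval k = 0) := by
    rintro ⟨h1, h2, h3, h4⟩
    exact hne ⟨by rw [h1, mul_zero], by rw [h2, mul_zero], by rw [h3, mul_zero],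
      by rw [h4, mul_zero]⟩
  set φ := algebraMap F K with hφ
  have hs : lin w (f'.eval k) (g'.eval k) ≠ 0 := by
    intro h0
    obtain ⟨h1, h2⟩ := hind _ _ h0
    have h3 : 2 * (h'.eval k) ^ 3 = k * (q'.eval k) ^ 3 := by
      have := congrArg (eval k) hid'
      simp only [eval_add, eval_pow, eval_mul, eval_X, eval_ofNat, h1, h2] at this
      linear_combination this
    have h4 : nf (φ k / 2) (-(φ (h'.eval k))) (φ (q'.eval k)) 0 = 0 := by
      have := congrArg φ h3
      simp only [map_mul, map_pow, map_ofNat] at this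
      simp only [nf]
      linear_combination (-1/2) * this
    have h5 := hk (-(φ (h'.eval k))) (φ (q'.eval k)) 0
    have h6 : ¬ ¬ ((-(φ (h'.eval k))) = 0 ∧ (φ (q'.eval k)) = 0 ∧ (0 : K) = 0) := by
      intro h7
      exact hG.ne _ (h5 h7) h4
    rw [not_not] at h6
    obtain ⟨h7, h8, _⟩ := h6
    rw [neg_eq_zero, map_eq_zero] at h7
    rw [map_eq_zero] at h8
    exact hne' ⟨h1, h2, h7, h8⟩
  have hq0 : q' ≠ 0 := right_ne_zero_of_mul hqq
  have key := descent_pair hG w hw (X : F[X]) k (by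
    intro π u hπ _ hdvd hev
    rw [map_X] at hdvd
    obtain ⟨A, B, D, hABD⟩ := norm_linear w hw π u hπ hdvd (φ k)
    rw [hABD] at hev ⊢
    have h2 : (2 : K) ^ π.natDegree = φ ((2 : F) ^ π.natDegree) := by
      rw [map_pow, map_ofNat]
    rw [h2]
    refine hG.mul _ _ (hG.base _ (pow_ne_zero _ two_ne_zero)) (hk _ _ _ ?_)
    rintro ⟨rfl, rfl, rfl⟩
    apply hev
    simp [nf]) f' g' h' q' a b c e hid' hbez hs
  obtain ⟨m, hm1, hm2, hm3, hm4⟩ := lead f' g' h' q' hq0 hid'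
  refine ⟨f'.coeff m, g'.coeff m, h'.coeff m, hm3, hm4, ?_⟩
  have hlc : (f'.map φ + C w * g'.map φ).leadingCoeff = lin w (f'.coeff m) (g'.coeff m) := by
    have hc : (f'.map φ + C w * g'.map φ).coeff m = lin w (f'.coeff m) (g'.coeff m) := by
      rw [coeff_add, coeff_C_mul, coeff_map, coeff_map]
      rfl
    have hne : lin w (f'.coeff m) (g'.coeff m) ≠ 0 := by
      intro h0
      obtain ⟨h1, h2⟩ := hind _ _ h0
      rw [h1, h2] at hm3
      have h3 : h'.coeff m ^ 3 = 0 := by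
        have : (2 : F) * h'.coeff m ^ 3 = 0 := by linear_combination hm3
        rcases mul_eq_zero.mp this with h4 | h4
        · exact absurd h4 two_ne_zero
        · exact h4
      exact hm4 ⟨h1, h2, pow_eq_zero_iff (by norm_num) |>.mp h3⟩
    have hdeg : (f'.map φ + C w * g'.map φ).natDegree ≤ m := by
      refine natDegree_add_le_of_degree_le ?_ ?_
      · exact (natDegree_map_le).trans hm1
      · exact (natDegree_C_mul_le _ _).trans ((natDegree_map_le).trans hm2)
    have hd2 : (f'.map φ + C w * g'.map φ).natDegree = m := by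
      refine le_antisymm hdeg ?_
      apply le_natDegree_of_ne_zero
      rw [hc]
      exact hne
    rw [leadingCoeff, hd2, hc]
  rw [hlc] at key
  rw [lin_mul, mul_assoc]
  exact hG.mul _ _ (hG.base _ hdk) key

/-- `k / 2` is not a cube, and points of the surface have `x + w y ≠ 0`. -/
theorem lin_ne_zero [CharZero F] [CharZero K] (hG : Grp F G) (w : K)
    (hind : ∀ x y : F, lin w x y = 0 → x = 0 ∧ y = 0) (k : F)
    (hk : ∀ A B D : K, ¬ (A = 0 ∧ B = 0 ∧ D = 0) → G (nf (algebraMap F K k / 2) A B D))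
    (x y z v : F) (hs : x ^ 3 + y ^ 3 + 2 * z ^ 3 = k * v ^ 3)
    (hne : ¬ (x = 0 ∧ y = 0 ∧ z = 0 ∧ v = 0)) : lin w x y ≠ 0 := by
  intro h0
  obtain ⟨h1, h2⟩ := hind _ _ h0
  rw [h1, h2] at hs
  have h4 : nf (algebraMap F K k / 2) (-(algebraMap F K z)) (algebraMap F K v) 0 = 0 := by
    have := congrArg (algebraMap F K) hs
    simp only [map_mul, map_pow, map_ofNat, map_add, map_zero] at this
    simp only [nf]
    linear_combination (-1/2) * this
  by_cases h6 : (-(algebraMap F K z)) = 0 ∧ (algebraMap F K v) = 0 ∧ (0 : K) = 0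
  · obtain ⟨h7, h8, _⟩ := h6
    rw [neg_eq_zero, map_eq_zero] at h7
    rw [map_eq_zero] at h8
    exact hne ⟨h1, h2, h7, h8⟩
  · exact hG.ne _ (hk _ _ _ h6) h4

/-- Two points of a rational curve on the surface. -/
theorem curve_core [CharZero F] [CharZero K] (hG : Grp F G) (w : K) (hw : w ^ 2 + w + 1 = 0)
    (hind : ∀ x y : F, lin w x y = 0 → x = 0 ∧ y = 0) (k : F)
    (hk : ∀ A B D : K, ¬ (A = 0 ∧ B = 0 ∧ D = 0) → G (nf (algebraMap F K k / 2) A B D))
    (f g h q : F[X]) (hid : f ^ 3 + g ^ 3 + 2 * h ^ 3 = C k * q ^ 3) (s t : F)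
    (hs : ¬ (f.eval s = 0 ∧ g.eval s = 0 ∧ h.eval s = 0 ∧ q.eval s = 0))
    (ht : ¬ (f.eval t = 0 ∧ g.eval t = 0 ∧ h.eval t = 0 ∧ q.eval t = 0)) :
    G (lin w (f.eval t) (g.eval t) * (lin w (f.eval s) (g.eval s))⁻¹) := by
  have hne0 : ¬ (f = 0 ∧ g = 0 ∧ h = 0 ∧ q = 0) := by
    rintro ⟨rfl, rfl, rfl, rfl⟩
    exact hs ⟨by simp, by simp, by simp, by simp⟩
  obtain ⟨d, f', g', h', q', a, b, c, e, hd0, rfl, rfl, rfl, rfl, hbez⟩ :=
    exists_coprime f g h q hne0
  have hid' : f' ^ 3 + g' ^ 3 + 2 * h' ^ 3 = C k * q' ^ 3 := by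
    apply mul_left_cancel₀ (pow_ne_zero 3 hd0)
    linear_combination hid
  set φ := algebraMap F K with hφ
  have hτ : ∀ ρ : K, ρ ^ 3 ≠ φ k / 2 := by
    intro ρ hρ
    have h1 := hG.ne _ (hk (-ρ) 1 0 (by rintro ⟨_, h2, _⟩; exact one_ne_zero h2))
    apply h1
    simp only [nf]
    linear_combination (-1) * hρ
  have key : ∀ r : F, ¬ ((d * f').eval r = 0 ∧ (d * g').eval r = 0 ∧ (d * h').eval r = 0 ∧
      (d * q').eval r = 0) → G (lin w ((d * f').eval r) ((d * g').eval r) *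
        (f'.map φ + C w * g'.map φ).leadingCoeff⁻¹) := by
    intro r hr
    simp only [eval_mul] at hr ⊢
    have hdk : d.eval r ≠ 0 := by
      intro h0
      exact hr ⟨by rw [h0, zero_mul], by rw [h0, zero_mul], by rw [h0, zero_mul],
        by rw [h0, zero_mul]⟩
    have hr' : ¬ (f'.eval r = 0 ∧ g'.eval r = 0 ∧ h'.eval r = 0 ∧ q'.eval r = 0) := by
      rintro ⟨h1, h2, h3, h4⟩
      exact hr ⟨by rw [h1, mul_zero], by rw [h2, mul_zero], by rw [h3, mul_zero],
        by rw [h4, mul_zero]⟩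
    have hlin : lin w (f'.eval r) (g'.eval r) ≠ 0 := by
      refine lin_ne_zero hG w hind k hk _ _ (h'.eval r) (q'.eval r) ?_ hr'
      have := congrArg (eval r) hid'
      simpa only [eval_add, eval_pow, eval_mul, eval_ofNat, eval_C] using this
    have h1 := descent_pair hG w hw (C k : F[X]) r (by
      intro π u hπ hirr hdvd hev
      rw [map_C] at hdvd
      have hdvd' : π ∣ C (φ k / 2) - u ^ 3 := by
        have e1 : C (φ k / 2) - u ^ 3 = C (1 / 2 : K) * (C (φ k) - 2 * u ^ 3) := by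
          have e2 : (2 : K[X]) = C 2 := (map_ofNat C 2).symm
          rw [e2, mul_sub, ← mul_assoc, ← C_mul, ← C_mul]
          congr 2
          · congr 1; ring
          · norm_num
        rw [e1]
        exact Dvd.dvd.mul_left hdvd _
      obtain ⟨A, B, D, hABD⟩ := norm_const (φ k / 2) hτ π u hπ hirr hdvd' (φ r)
      rw [hABD] at hev ⊢
      refine hk _ _ _ ?_
      rintro ⟨rfl, rfl, rfl⟩
      apply hev
      simp [nf]) f' g' h' q' a b c e hid' hbez hlin
    rw [lin_mul, mul_assoc]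
    exact hG.mul _ _ (hG.base _ hdk) h1
  have k1 := key s hs
  have k2 := key t ht
  have h3 := hG.mul _ _ k2 (hG.inv k1)
  have hl : (f'.map φ + C w * g'.map φ).leadingCoeff ≠ 0 := by
    intro h0
    apply hG.ne _ k1
    rw [h0]
    simp
  have e2 : lin w ((d * f').eval t) ((d * g').eval t) *
      (f'.map φ + C w * g'.map φ).leadingCoeff⁻¹ *
      (lin w ((d * f').eval s) ((d * g').eval s) *
        (f'.map φ + C w * g'.map φ).leadingCoeff⁻¹)⁻¹
      = lin w ((d * f').eval t) ((d * g').eval t) *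
        (lin w ((d * f').eval s) ((d * g').eval s))⁻¹ := by
    have hls : lin w ((d * f').eval s) ((d * g').eval s) ≠ 0 := by
      intro h0
      apply hG.ne _ k1
      rw [h0]
      simp
    field_simp
  rwa [e2] at h3

/-- Chords and tangents: three points of the surface on a line. -/
theorem chord_core [CharZero F] [CharZero K] (hG : Grp F G) (w : K) (hw : w ^ 2 + w + 1 = 0)
    (k : F)
    (hk : ∀ A B D : K, ¬ (A = 0 ∧ B = 0 ∧ D = 0) → G (nf (algebraMap F K k / 2) A B D))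
    (a1 a2 a3 a4 b1 b2 b3 b4 c r s t : F) (hc : c ≠ 0)
    (hid : (C a1 + C b1 * X) ^ 3 + (C a2 + C b2 * X) ^ 3 + 2 * (C a3 + C b3 * X) ^ 3
      - C k * (C a4 + C b4 * X) ^ 3 = C c * (X - C r) * (X - C s) * (X - C t))
    (hb : lin w b1 b2 ≠ 0)
    (hr : lin w (a1 + b1 * r) (a2 + b2 * r) ≠ 0) (hs : lin w (a1 + b1 * s) (a2 + b2 * s) ≠ 0)
    (ht : lin w (a1 + b1 * t) (a2 + b2 * t) ≠ 0) :
    G (lin w (a1 + b1 * r) (a2 + b2 * r) * lin w (a1 + b1 * s) (a2 + b2 * s) *
      lin w (a1 + b1 * t) (a2 + b2 * t)) := by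
  set φ := algebraMap F K with hφ
  set β := lin w b1 b2 with hβ
  set α := lin w a1 a2 with hα
  have hlin : ∀ x : F, lin w (a1 + b1 * x) (a2 + b2 * x) = α + β * φ x := by
    intro x
    simp only [hα, hβ, lin, map_add, map_mul]
    ring
  rw [hlin] at hr hs ht ⊢
  rw [hlin s, hlin t] at *
  set s0 : K := -α / β with hs0
  have hroot : α + β * s0 = 0 := by rw [hs0]; field_simp; ring
  have hev : (φ a1 + φ b1 * s0) ^ 3 + (φ a2 + φ b2 * s0) ^ 3 + 2 * (φ a3 + φ b3 * s0) ^ 3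
      - φ k * (φ a4 + φ b4 * s0) ^ 3 = φ c * (s0 - φ r) * (s0 - φ s) * (s0 - φ t) := by
    have := congrArg (fun p : F[X] => p.eval₂ φ s0) hid
    simpa only [eval₂_add, eval₂_sub, eval₂_mul, eval₂_pow, eval₂_C, eval₂_X, eval₂_ofNat]
      using this
  have hxy : (φ a1 + φ b1 * s0) + w * (φ a2 + φ b2 * s0) = 0 := by
    have : (φ a1 + φ b1 * s0) + w * (φ a2 + φ b2 * s0) = α + β * s0 := by
      simp only [hα, hβ, lin]
      ring
    rw [this, hroot]
  have hx3 : (φ a1 + φ b1 * s0) ^ 3 + (φ a2 + φ b2 * s0) ^ 3 = 0 := by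
    generalize φ a1 + φ b1 * s0 = x at hxy
    generalize φ a2 + φ b2 * s0 = y at hxy
    have hx : x = -w * y := by linear_combination hxy
    rw [hx]
    linear_combination (-(w - 1) * y ^ 3) * hw
  have hφc : φ c ≠ 0 := by rw [Ne, map_eq_zero]; exact hc
  have hprod : (α + β * φ r) * (α + β * φ s) * (α + β * φ t)
      = β ^ 3 * (φ (2 * c⁻¹) * nf (φ k / 2) (-(φ a3 + φ b3 * s0)) (φ a4 + φ b4 * s0) 0) := by
    have e1 : α = -β * s0 := by linear_combination hroot
    have e2 : (α + β * φ r) * (α + β * φ s) * (α + β * φ t)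
        = - β ^ 3 * ((s0 - φ r) * (s0 - φ s) * (s0 - φ t)) := by
      rw [e1]; ring
    have e3 : (s0 - φ r) * (s0 - φ s) * (s0 - φ t)
        = (φ c)⁻¹ * (2 * (φ a3 + φ b3 * s0) ^ 3 - φ k * (φ a4 + φ b4 * s0) ^ 3) := by
      field_simp
      linear_combination (-1) * hev + hx3
    rw [e2, e3, map_mul, map_inv₀, map_ofNat]
    simp only [nf]
    ring
  have hne : (α + β * φ r) * (α + β * φ s) * (α + β * φ t) ≠ 0 :=
    mul_ne_zero (mul_ne_zero hr hs) ht
  rw [hprod] at hne ⊢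
  refine hG.mul _ _ (hG.cube _ hb) (hG.mul _ _ (hG.base _ ?_) (hk _ _ _ ?_))
  · exact mul_ne_zero two_ne_zero (inv_ne_zero hc)
  · rintro ⟨h1, h2, _⟩
    apply hne
    rw [h1, h2]
    simp [nf]

end NG
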