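import Mathlib

/-!
Points of the cubic surface `x^3 + y^3 + 2 z^3 = k v^3` which are obtained by the usual
constructions (MP_1b7df1_nt, helper56).
-/

open Polynomial

namespace NG

/-- `Constructible k x y z v`: the point `(x : y : z : v)` of the surface
`x^3 + y^3 + 2 z^3 = k v^3` over the field `F` is obtained by the following constructions. -/
inductive Constructible {F : Type*} [Field F] (k : F) : F → F → F → F → Prop
  /-- All points at infinity. -/
  | infinity (x y z : F) (hs : x ^ 3 + y ^ 3 + 2 * z ^ 3 = 0) (hne : ¬ (x = 0 ∧ y = 0 ∧ z = 0)) :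
      Constructible k x y z 0
  /-- Parametric solutions: specialisations of an identity
  `f^3 + g^3 + 2 h^3 = c (a X + b)^n q^3`, where `a ≠ 0` and `n` is not a multiple of three,
  at a parameter `t` with `c (a t + b)^n = k`. -/
  | family (f g h q : F[X]) (a b c t : F) (n : ℕ) (ha : a ≠ 0) (hn : ¬ 3 ∣ n)
      (hid : f ^ 3 + g ^ 3 + 2 * h ^ 3 = C c * (C a * X + C b) ^ n * q ^ 3)
      (hk : c * (a * t + b) ^ n = k)
      (hne : ¬ (f.eval t = 0 ∧ g.eval t = 0 ∧ h.eval t = 0 ∧ q.eval t = 0)) :
      Constructible k (f.eval t) (g.eval t) (h.eval t) (q.eval t)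
  /-- Rational curves on the surface which pass through a point already constructed. -/
  | curve (f g h q : F[X]) (s t : F)
      (hid : f ^ 3 + g ^ 3 + 2 * h ^ 3 = C k * q ^ 3)
      (hs : Constructible k (f.eval s) (g.eval s) (h.eval s) (q.eval s))
      (hne : ¬ (f.eval t = 0 ∧ g.eval t = 0 ∧ h.eval t = 0 ∧ q.eval t = 0)) :
      Constructible k (f.eval t) (g.eval t) (h.eval t) (q.eval t)
  /-- Chords and tangents: the third point of intersection of the surface with a line through two
  points already constructed (the same point twice for a tangent line). The line is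
  parametrised by `(a1 + b1 X : a2 + b2 X : a3 + b3 X : a4 + b4 X)`. -/
  | line (a1 a2 a3 a4 b1 b2 b3 b4 c r s t : F) (hc : c ≠ 0)
      (hid : (C a1 + C b1 * X) ^ 3 + (C a2 + C b2 * X) ^ 3 + 2 * (C a3 + C b3 * X) ^ 3
        - C k * (C a4 + C b4 * X) ^ 3 = C c * (X - C r) * (X - C s) * (X - C t))
      (hr : Constructible k (a1 + b1 * r) (a2 + b2 * r) (a3 + b3 * r) (a4 + b4 * r))
      (hs : Constructible k (a1 + b1 * s) (a2 + b2 * s) (a3 + b3 * s) (a4 + b4 * s))
      (hne : ¬ (a1 + b1 * t = 0 ∧ a2 + b2 * t = 0 ∧ a3 + b3 * t = 0 ∧ a4 + b4 * t = 0)) :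
      Constructible k (a1 + b1 * t) (a2 + b2 * t) (a3 + b3 * t) (a4 + b4 * t)
  /-- The symmetry which exchanges the first two coordinates. -/
  | swap (x y z v : F) (h : Constructible k x y z v) : Constructible k y x z v
  /-- Another choice of homogeneous coordinates. -/
  | scale (l x y z v : F) (hl : l ≠ 0) (h : Constructible k x y z v) :
      Constructible k (l * x) (l * y) (l * z) (l * v)

end NG
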