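import Pool.Agent.NG.Main

/-!
The no-construction theorem for `x^3 + y^3 + 2 z^3 = k` (MP_1b7df1_nt, helper56).
-/

open Polynomial

namespace NG

/-- The conjugation `w ↦ w ^ 2`. -/
def conj (R : Type*) [CommRing R] :
    QuadraticAlgebra R (-1) (-1) →+* QuadraticAlgebra R (-1) (-1) where
  toFun x := ⟨x.re - x.im, -x.im⟩
  map_one' := by ext <;> simp [QuadraticAlgebra.re_one, QuadraticAlgebra.im_one]
  map_mul' x y := by ext <;> simp <;> ring
  map_zero' := by ext <;> simp
  map_add' x y := by ext <;> simp <;> ring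

theorem conj_mk {R : Type*} [CommRing R] (a b : R) : conj R ⟨a, b⟩ = ⟨a - b, -b⟩ := rfl

variable {p : ℕ} [hp : Fact p.Prime]

theorem conj_iota (x : ER p) : conj ℚ_[p] (iota p x) = iota p (conj ℤ_[p] x) := by
  ext
  · rw [iota_re]
    change (iota p x).re - (iota p x).im = ((x.re - x.im : ℤ_[p]) : ℚ_[p])
    rw [iota_re, iota_im]
    push_cast
    rfl
  · rw [iota_im]
    change -(iota p x).im = ((-x.im : ℤ_[p]) : ℚ_[p])
    rw [iota_im]
    push_cast
    rfl

theorem conj_alg (c : ℚ_[p]) :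
    conj ℚ_[p] (algebraMap ℚ_[p] (EK p) c) = algebraMap ℚ_[p] (EK p) c := by
  ext
  · change (algebraMap ℚ_[p] (EK p) c).re - (algebraMap ℚ_[p] (EK p) c).im = _
    simp
  · change -(algebraMap ℚ_[p] (EK p) c).im = _
    simp

theorem conj_w : conj ℚ_[p] (wK : EK p) = wK ^ 2 := by
  have h := wK_eq (p := p)
  have h1 : (wK : EK p) ^ 2 = -1 - wK := by linear_combination h
  rw [h1]
  ext
  · change (0 : ℚ_[p]) - 1 = -1 - 0
    ring
  · change -(1 : ℚ_[p]) = -0 - 1
    ring

theorem Gp_swap [Fact (∀ r : ℚ_[p], r ^ 2 ≠ -1 + -1 * r)] {lam : ER p}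
    (hlam : conj ℤ_[p] lam = lam ∨ conj ℤ_[p] lam = -lam) (a b : ℚ_[p])
    (h : Gp lam (lin (wK : EK p) a b * (1 + wK)⁻¹)) :
    Gp lam (lin (wK : EK p) b a * (1 + wK)⁻¹) := by
  obtain ⟨c, j, y, hc, hy⟩ := h
  have hw := wK_eq (p := p)
  have h1 := congrArg (conj ℚ_[p]) hy
  rw [one_add_w_inv] at h1
  have h2 : conj ℚ_[p] (lin (wK : EK p) a b * -wK) = lin (wK : EK p) b a * -wK := by
    rw [map_mul, map_neg, conj_w, lin, lin, map_add, map_mul, conj_alg, conj_alg, conj_w]
    linear_combination (- wK ^ 2 * algebraMap ℚ_[p] (EK p) b + wK * algebraMap ℚ_[p] (EK p) b) * hw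
  have h3 : conj ℤ_[p] (lam ^ j * (1 + p * y)) = (conj ℤ_[p] lam) ^ j * (1 + p * conj ℤ_[p] y) := by
    rw [map_mul, map_pow, map_add, map_one, map_mul, map_natCast]
  rw [h2, map_mul (conj ℚ_[p]), conj_alg, conj_iota, h3] at h1
  rw [one_add_w_inv, h1]
  rcases hlam with hl | hl
  · rw [hl]
    exact ⟨c, j, _, hc, rfl⟩
  · rw [hl]
    rcases Nat.even_or_odd j with hj | hj
    · rw [hj.neg_pow]
      exact ⟨c, j, _, hc, rfl⟩
    · have e : (-lam) ^ j * (1 + p * conj ℤ_[p] y) = (-1) * (lam ^ j * (1 + p * conj ℤ_[p] y)) := by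
        rw [hj.neg_pow]; ring
      rw [e]
      exact Gp_of_sign c hc j (-1) _ (Or.inr rfl)

theorem conj_lam3 : conj ℤ_[3] lam3 = -lam3 := by
  have hw := wR_eq (p := 3)
  have h : conj ℤ_[3] (wR : ER 3) = wR ^ 2 := by
    have h1 : (wR : ER 3) ^ 2 = -1 - wR := by linear_combination hw
    rw [h1]
    ext
    · change (0 : ℤ_[3]) - 1 = _
      simp [wR, re1]
    · change -(1 : ℤ_[3]) = _
      simp [wR, im1]
  rw [lam3, map_add, map_mul, map_one, map_ofNat, h]
  linear_combination 2 * hw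

/-- The local theorem at two. -/
theorem local_two (k x y z : ℤ_[2])
    (h : Constructible (k : ℚ_[2]) (x : ℚ_[2]) (y : ℚ_[2]) (z : ℚ_[2]) 1) : (2 : ℤ_[2]) ∣ k := by
  by_contra hcon
  have hk : ‖(k : ℚ_[2])‖ = 1 := by
    rw [← PadicInt.norm_def]
    refine le_antisymm (PadicInt.norm_le_one _) ?_
    rw [← not_lt, PadicInt.norm_lt_one_iff_dvd]
    intro h1
    apply hcon
    exact_mod_cast h1
  have hG : Grp ℚ_[2] (Gp (1 : ER 2) : EK 2 → Prop) := grp_Gp one_ne_zero cub_two
  obtain ⟨h1, _, h3⟩ := constructible_class hG wK wK_eq lin_zero (k : ℚ_[2]) (hk_two _ hk)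
    lead_two (Gp_swap (Or.inl (map_one _))) h
  obtain ⟨u, hu⟩ := int_two x y h3
  have h4 : x ^ 3 + y ^ 3 + 2 * z ^ 3 = k := by
    apply PadicInt.ext
    have c2 : ((2 : ℤ_[2]) : ℚ_[2]) = 2 := rfl
    push_cast
    rw [c2]
    linear_combination h1
  apply hcon
  obtain rfl : x = y + 2 * u := by linear_combination hu
  exact ⟨y ^ 3 + 3 * y ^ 2 * u + 6 * y * u ^ 2 + 4 * u ^ 3 + z ^ 3, by rw [← h4]; ring⟩

/-- The local theorem at three. -/
theorem local_three (k x y z : ℤ_[3])
    (h : Constructible (k : ℚ_[3]) (x : ℚ_[3]) (y : ℚ_[3]) (z : ℚ_[3]) 1) :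
    ¬ (9 ∣ k - 1 ∨ 9 ∣ k + 1) := by
  intro hk
  have hG : Grp ℚ_[3] (Gp lam3 : EK 3 → Prop) := grp_Gp lam3_ne cub_three
  obtain ⟨h1, _, h3⟩ := constructible_class hG wK wK_eq lin_zero (k : ℚ_[3]) (hk_three k hk)
    lead_three (Gp_swap (Or.inr conj_lam3)) h
  have h4 : k = x ^ 3 + y ^ 3 + 2 * z ^ 3 := by
    apply PadicInt.ext
    have c2 : ((2 : ℤ_[3]) : ℚ_[3]) = 2 := rfl
    push_cast
    rw [c2]
    linear_combination (-1) * h1
  rw [h4] at hk
  exact final_three x y z (int_three x y h3) hk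

/-- Constructions can be transported along homomorphisms of fields. -/
theorem Constructible.map {F L : Type*} [Field F] [Field L] (φ : F →+* L) {k x y z v : F}
    (h : Constructible k x y z v) : Constructible (φ k) (φ x) (φ y) (φ z) (φ v) := by
  induction h with
  | infinity x y z hs hne =>
    rw [map_zero]
    refine Constructible.infinity _ _ _ ?_ ?_
    · have := congrArg φ hs
      simpa only [map_add, map_mul, map_pow, map_ofNat, map_zero] using this
    · simpa only [map_eq_zero] using hne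
  | family f g h q a b c t n ha hn hid hk hne =>
    have e : ∀ r : F[X], φ (r.eval t) = (r.map φ).eval (φ t) := by
      intro r
      rw [eval_map, eval₂_at_apply]
    rw [e, e, e, e]
    refine Constructible.family (f.map φ) (g.map φ) (h.map φ) (q.map φ) (φ a) (φ b) (φ c) (φ t) n
      ?_ hn ?_ ?_ ?_
    · rwa [Ne, map_eq_zero]
    · have := congrArg (Polynomial.map φ) hid
      simpa only [Polynomial.map_add, Polynomial.map_mul, Polynomial.map_pow, Polynomial.map_ofNat,
        map_C, map_X] using this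
    · rw [← hk]
      simp only [map_mul, map_pow, map_add]
    · rw [← e, ← e, ← e, ← e]
      simpa only [map_eq_zero] using hne
  | curve f g h q s t hid hs hne ih =>
    have e : ∀ (r : F[X]) (t : F), φ (r.eval t) = (r.map φ).eval (φ t) := by
      intro r t
      rw [eval_map, eval₂_at_apply]
    simp only [e] at ih ⊢
    refine Constructible.curve (f.map φ) (g.map φ) (h.map φ) (q.map φ) (φ s) (φ t) ?_ ih ?_
    · have := congrArg (Polynomial.map φ) hid
      simpa only [Polynomial.map_add, Polynomial.map_mul, Polynomial.map_pow, Polynomial.map_ofNat,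
        map_C, map_X] using this
    · simp only [← e]
      simpa only [map_eq_zero] using hne
  | line a1 a2 a3 a4 b1 b2 b3 b4 c r s t hc hid hr hs hne ihr ihs =>
    simp only [map_add, map_mul] at ihr ihs ⊢
    refine Constructible.line (φ a1) (φ a2) (φ a3) (φ a4) (φ b1) (φ b2) (φ b3) (φ b4) (φ c)
      (φ r) (φ s) (φ t) ?_ ?_ ihr ihs ?_
    · rwa [Ne, map_eq_zero]
    · have := congrArg (Polynomial.map φ) hid
      simpa only [Polynomial.map_add, Polynomial.map_sub, Polynomial.map_mul, Polynomial.map_pow,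
        Polynomial.map_ofNat, map_C, map_X] using this
    · simp only [← map_mul, ← map_add]
      simpa only [map_eq_zero] using hne
  | swap x y z v _ ih => exact Constructible.swap _ _ _ _ ih
  | scale l x y z v hl _ ih =>
    simp only [map_mul]
    exact Constructible.scale _ _ _ _ _ (by rwa [Ne, map_eq_zero]) ih

/-- The theorem over the rationals. -/
theorem no_construction (k x y z : ℤ)
    (h : Constructible (k : ℚ) (x : ℚ) (y : ℚ) (z : ℚ) 1) :
    Even k ∧ ¬ k ≡ 1 [ZMOD 9] ∧ ¬ k ≡ -1 [ZMOD 9] := by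
  have h2 := h.map (algebraMap ℚ ℚ_[2])
  have h3 := h.map (algebraMap ℚ ℚ_[3])
  simp only [eq_ratCast, Rat.cast_intCast, Rat.cast_one] at h2 h3
  have e2 : (2 : ℤ_[2]) ∣ (k : ℤ_[2]) := by
    refine local_two k x y z ?_
    push_cast
    exact h2
  have e3 : ¬ ((9 : ℤ_[3]) ∣ (k : ℤ_[3]) - 1 ∨ (9 : ℤ_[3]) ∣ (k : ℤ_[3]) + 1) := by
    refine local_three k x y z ?_
    push_cast
    exact h3
  refine ⟨?_, ?_, ?_⟩
  · rw [even_iff_two_dvd]
    have h4 : ‖(k : ℤ_[2])‖ < 1 := by
      rw [PadicInt.norm_lt_one_iff_dvd]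
      exact_mod_cast e2
    have := (PadicInt.norm_int_lt_one_iff_dvd k).mp h4
    exact_mod_cast this
  · intro h4
    obtain ⟨u, hu⟩ := h4.symm.dvd
    apply e3
    left
    exact ⟨u, by
      have := congrArg (fun t : ℤ => (t : ℤ_[3])) hu
      push_cast at this
      exact this⟩
  · intro h4
    obtain ⟨u, hu⟩ := h4.symm.dvd
    apply e3
    right
    exact ⟨u, by
      have := congrArg (fun t : ℤ => (t : ℤ_[3])) hu
      push_cast at this
      linear_combination this⟩

end NG
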