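import Pool.Agent.NG.Cls3

/-!
Integral points of the trivial class, at three (MP_1b7df1_nt, helper56).
-/

namespace NG

theorem unit_norm3 (e r : ℤ_[3]) (he : e = 1 ∨ e = -1) :
    ‖((e + 3 * r : ℤ_[3]) : ℚ_[3])‖ = 1 := by
  rw [← PadicInt.norm_def]
  refine le_antisymm (PadicInt.norm_le_one _) ?_
  rw [← not_lt, PadicInt.norm_lt_one_iff_dvd]
  rintro ⟨t, ht⟩
  push_cast at ht
  rcases he with rfl | rfl
  · exact not_dvd_one (p := 3) ⟨t - r, by push_cast; linear_combination ht⟩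
  · exact not_dvd_one (p := 3) ⟨r - t, by push_cast; linear_combination (-1) * ht⟩

theorem int_three (x y : ℤ_[3])
    (h : Gp lam3 (lin (wK : EK 3) (x : ℚ_[3]) (y : ℚ_[3]) * (1 + wK)⁻¹)) :
    (3 : ℤ_[3]) ∣ x - y ∨ (3 : ℤ_[3]) ∣ x + y := by
  obtain ⟨c, j, z, hc, hz⟩ := h
  have h3 : (1 + wK : EK 3) ≠ 0 := by
    intro h0
    have := one_add_w_inv (p := 3)
    rw [h0, inv_zero] at this
    have h4 := wK_eq (p := 3)
    have h5 : (wK : EK 3) = 0 := by linear_combination this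
    rw [h5] at h4
    norm_num at h4
  have h1 : lin (wK : EK 3) (x : ℚ_[3]) (y : ℚ_[3])
      = algebraMap _ _ c * iota 3 ((1 + wR) * (lam3 ^ j * (1 + 3 * z))) := by
    have h2 := congrArg (fun t => t * (1 + wK)) hz
    simp only [mul_assoc, inv_mul_cancel₀ h3, mul_one] at h2
    have h6 : iota 3 (1 + wR) = 1 + wK := by rw [map_add, map_one, iota_wR]
    rw [h2, map_mul _ (1 + wR), h6, Nat.cast_ofNat, mul_comm (1 + wK)]
  -- the two shapes
  have key : ∀ (d : ℚ_[3]) (e f : ℤ_[3]) (t : ER 3), (e = 1 ∨ e = -1) →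
      lin (wK : EK 3) (x : ℚ_[3]) (y : ℚ_[3])
        = algebraMap _ _ d * iota 3 (algebraMap _ _ e + wR * algebraMap _ _ f + 3 * t) →
      ∃ d' : ℤ_[3], x = d' * (e + 3 * t.re) ∧ y = d' * (f + 3 * t.im) := by
    intro d e f t he ht
    have hE : algebraMap _ _ e + wR * algebraMap _ _ f + 3 * t
        = (⟨e + 3 * t.re, f + 3 * t.im⟩ : ER 3) := by
      ext
      · simp [wR, re3, im3]
      · simp [wR, re3, im3]
    rw [hE, lin_eq] at ht
    have hx : (x : ℚ_[3]) = d * ((e + 3 * t.re : ℤ_[3]) : ℚ_[3]) := by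
      have := congrArg QuadraticAlgebra.re ht
      simpa [iota_re, iota_im] using this
    have hy : (y : ℚ_[3]) = d * ((f + 3 * t.im : ℤ_[3]) : ℚ_[3]) := by
      have := congrArg QuadraticAlgebra.im ht
      simpa [iota_re, iota_im] using this
    have hcn : ‖d‖ ≤ 1 := by
      have h3 := congrArg norm hx
      rw [norm_mul, unit_norm3 _ _ he, mul_one] at h3
      rw [← h3, ← PadicInt.norm_def]
      exact PadicInt.norm_le_one _
    obtain ⟨d', rfl⟩ : ∃ R : ℤ_[3], (R : ℚ_[3]) = d := ⟨⟨d, hcn⟩, rfl⟩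
    refine ⟨d', ?_, ?_⟩
    · apply PadicInt.ext
      push_cast at hx ⊢
      exact hx
    · apply PadicInt.ext
      push_cast at hy ⊢
      exact hy
  have hneg : ∀ i : ℕ, iota 3 ((-3) ^ i) = algebraMap ℚ_[3] (EK 3) ((-3) ^ i) := by
    intro i
    rw [map_pow, map_pow, map_neg, map_neg, map_ofNat, map_ofNat]
  rcases Nat.even_or_odd' j with ⟨i, hi | hi⟩
  · left
    have h4 : (1 + wR) * (lam3 ^ j * (1 + 3 * z)) = (-3) ^ i *
        (algebraMap _ _ (1 : ℤ_[3]) + wR * algebraMap _ _ (1 : ℤ_[3]) + 3 * ((1 + wR) * z)) := by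
      rw [hi, pow_mul, lam3_sq, map_one]
      ring
    rw [h4, map_mul, hneg, ← mul_assoc, ← map_mul] at h1
    obtain ⟨d', hx, hy⟩ := key _ 1 1 _ (Or.inl rfl) h1
    refine ⟨d' * (((1 + wR) * z).re - ((1 + wR) * z).im), ?_⟩
    linear_combination hx - hy
  · right
    have h4 : (1 + wR) * (lam3 ^ j * (1 + 3 * z)) = (-3) ^ i *
        (algebraMap _ _ (-1 : ℤ_[3]) + wR * algebraMap _ _ (1 : ℤ_[3]) + 3 * ((wR - 1) * z)) := by
      have h10 : (1 + wR) * lam3 = wR - 1 := by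
        rw [lam3]
        linear_combination 2 * (wR_eq (p := 3))
      rw [hi, pow_succ, pow_mul, lam3_sq, map_neg, map_one]
      linear_combination ((-3) ^ i * (1 + 3 * z)) * h10
    rw [h4, map_mul, hneg, ← mul_assoc, ← map_mul] at h1
    obtain ⟨d', hx, hy⟩ := key _ (-1) 1 _ (Or.inr rfl) h1
    refine ⟨d' * (((wR - 1) * z).re + ((wR - 1) * z).im), ?_⟩
    linear_combination hx + hy

end NG
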