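import Pool.Agent.NG.Padic

/-!
The local norm conditions at two and at three (MP_1b7df1_nt, helper56).
-/

namespace NG

variable {p : ℕ} [hp : Fact p.Prime]

theorem algMap_two : (algebraMap ℚ_[p] (EK p) 2) = 2 := map_ofNat _ 2

theorem alg2 : (algebraMap ℤ_[p] (ER p) 2) = 2 := map_ofNat _ 2
theorem alg3 : (algebraMap ℤ_[p] (ER p) 3) = 3 := map_ofNat _ 3
theorem alg4 : (algebraMap ℤ_[p] (ER p) 4) = 4 := map_ofNat _ 4
theorem alg9 : (algebraMap ℤ_[p] (ER p) 9) = 9 := map_ofNat _ 9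
theorem re1 : (1 : ER p).re = 1 := rfl
theorem im1 : (1 : ER p).im = 0 := rfl
theorem re2 : (2 : ER p).re = 2 := rfl
theorem im2 : (2 : ER p).im = 0 := rfl
theorem re3 : (3 : ER p).re = 3 := rfl
theorem im3 : (3 : ER p).im = 0 := rfl

/-- From integral elements to all elements. -/
theorem hk_of [Fact (∀ r : ℚ_[p], r ^ 2 ≠ -1 + -1 * r)] {lam : ER p} (κ : ER p) (k : ℚ_[p])
    (hκ : iota p κ = algebraMap ℚ_[p] (EK p) (4 * k))
    (h : ∀ A B D : ER p, ¬ ((∃ y, A = p * y) ∧ (∃ y, B = p * y) ∧ (∃ y, D = p * y)) →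
      ∃ c : ℚ_[p], c ≠ 0 ∧ ∃ (j : ℕ) (y : ER p),
        iota p (nf κ A B D) = algebraMap _ _ c * iota p (lam ^ j * (1 + p * y)))
    (A B D : EK p) (hne : ¬ (A = 0 ∧ B = 0 ∧ D = 0)) :
    Gp lam (nf (algebraMap ℚ_[p] (EK p) k / 2) A B D) := by
  have h2 : (2 : EK p) ≠ 0 := by
    rw [← algMap_two, Ne, map_eq_zero]
    exact two_ne_zero
  have h4 : (4 : EK p) ≠ 0 := by
    have : (4 : EK p) = 2 * 2 := by norm_num
    rw [this]
    exact mul_ne_zero h2 h2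
  obtain ⟨c, A', B', D', hc, h1, h5, h3, h6⟩ := scale3 A (B / 2) (D / 4) (by
    rintro ⟨rfl, hB, hD⟩
    apply hne
    refine ⟨rfl, ?_, ?_⟩
    · rcases div_eq_zero_iff.mp hB with h | h
      · exact h
      · exact absurd h h2
    · rcases div_eq_zero_iff.mp hD with h | h
      · exact h
      · exact absurd h h4)
  obtain ⟨d, hd, j, y, hy⟩ := h A' B' D' h6
  have hB : B = 2 * (algebraMap _ _ c * iota p B') := by
    rw [← h5]; field_simp
  have hD : D = 4 * (algebraMap _ _ c * iota p D') := by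
    rw [← h3]; field_simp
  refine ⟨c ^ 3 * d, j, y, mul_ne_zero (pow_ne_zero 3 hc) hd, ?_⟩
  rw [map_mul, mul_assoc, ← hy, nf_map, hκ, h1, hB, hD]
  simp only [nf, map_mul, map_pow, map_ofNat]
  field_simp
  ring

/-! ### The prime two -/

theorem res_two (x : ER 2) : (∃ y, x = 2 * y) ∨ (∃ y, x ^ 3 = 1 + 2 * y) := by
  obtain ⟨a, ha⟩ := two_res x.re
  obtain ⟨b, hb⟩ := two_res x.im
  have hw := wR_eq (p := 2)
  have hx : ∀ e f : ℤ_[2], x.re = e + 2 * a → x.im = f + 2 * b →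
      x = algebraMap _ _ e + wR * algebraMap _ _ f + 2 * ⟨a, b⟩ := by
    intro e f h1 h2
    ext
    · simp [h1, wR, re2, im2]
    · simp [h2, wR, re2, im2]
  rcases ha with ha | ha <;> rcases hb with hb | hb
  · left
    refine ⟨⟨a, b⟩, ?_⟩
    rw [hx 0 0 (by rw [ha]; ring) (by rw [hb]; ring)]
    simp
  · right
    rw [hx 0 1 (by rw [ha]; ring) (by rw [hb])]
    set y : ER 2 := ⟨a, b⟩
    refine ⟨3 * wR ^ 2 * y + 6 * wR * y ^ 2 + 4 * y ^ 3, ?_⟩
    rw [map_zero, map_one]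
    linear_combination (wR - 1) * hw
  · right
    rw [hx 1 0 (by rw [ha]) (by rw [hb]; ring)]
    set y : ER 2 := ⟨a, b⟩
    refine ⟨3 * y + 6 * y ^ 2 + 4 * y ^ 3, ?_⟩
    rw [map_zero, map_one]
    ring
  · right
    rw [hx 1 1 (by rw [ha]) (by rw [hb])]
    set y : ER 2 := ⟨a, b⟩
    refine ⟨-1 + 3 * (1 + wR) ^ 2 * y + 6 * (1 + wR) * y ^ 2 + 4 * y ^ 3, ?_⟩
    rw [map_one]
    linear_combination (wR + 2) * hw

theorem cub_two : Cub (1 : ER 2) := by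
  intro a
  rcases res_two a with ⟨y, hy⟩ | ⟨y, hy⟩
  · exact Or.inl ⟨y, by rw [hy]; norm_num⟩
  · refine Or.inr ⟨0, 1, y, Or.inl rfl, ?_⟩
    rw [hy]
    norm_num

theorem hk_two (k : ℚ_[2]) (hk : ‖k‖ = 1) (A B D : EK 2) (hne : ¬ (A = 0 ∧ B = 0 ∧ D = 0)) :
    Gp (1 : ER 2) (nf (algebraMap ℚ_[2] (EK 2) k / 2) A B D) := by
  obtain ⟨k0, rfl⟩ : ∃ R : ℤ_[2], (R : ℚ_[2]) = k := ⟨⟨k, hk.le⟩, rfl⟩
  obtain ⟨κ', hκ | hκ⟩ := two_res k0
  · exfalso
    have : ‖k0‖ < 1 := (PadicInt.norm_lt_one_iff_dvd k0).mpr ⟨κ', by rw [hκ]; norm_num⟩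
    rw [PadicInt.norm_def] at this
    exact absurd hk this.ne
  · refine hk_of (4 * (1 + 2 * algebraMap _ _ κ')) _ ?_ ?_ A B D hne
    · have h1 : (4 * (1 + 2 * algebraMap _ _ κ') : ER 2) = algebraMap _ _ (4 * k0) := by
        rw [hκ, map_mul, map_add, map_mul, map_one, alg2, alg4]
      rw [h1, iota_int]
      push_cast
      rfl
    · intro A' B' D' h
      obtain ⟨j, y, hy⟩ := ring_two res_two (algebraMap _ _ κ') A' B' D' (by
        rintro ⟨⟨a, ha⟩, ⟨b, hb⟩, ⟨d, hd⟩⟩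
        exact h ⟨⟨a, by rw [ha]; norm_num⟩, ⟨b, by rw [hb]; norm_num⟩, ⟨d, by rw [hd]; norm_num⟩⟩)
      refine ⟨2 ^ j, pow_ne_zero j two_ne_zero, 0, y, ?_⟩
      rw [hy]
      simp only [map_mul, map_pow, map_add, map_one, map_ofNat, map_natCast, one_pow, one_mul]
      norm_num

/-! ### The prime three -/

/-- The square root of minus three. -/
noncomputable def lam3 : ER 3 := 1 + 2 * wR

theorem lam3_sq : lam3 ^ 2 = -3 := by
  rw [lam3]
  linear_combination 4 * (wR_eq (p := 3))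

theorem lam3_ne : lam3 ≠ 0 := by
  intro h
  have h1 := lam3_sq
  rw [h] at h1
  have h2 := congrArg QuadraticAlgebra.re h1
  rw [QuadraticAlgebra.re_neg, re3] at h2
  simp at h2

theorem res_three (x : ER 3) : ∃ y, x = lam3 * y ∨ x = 1 + lam3 * y ∨ x = -1 + lam3 * y := by
  obtain ⟨s, hs⟩ := three_res (x.re + x.im)
  have hw := wR_eq (p := 3)
  have hx : x = algebraMap _ _ x.re + wR * algebraMap _ _ x.im := by
    ext
    · simp [wR]
    · simp [wR]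
  have key : ∀ r : ℤ_[3], x.re + x.im = r + 3 * s →
      x = algebraMap _ _ r + lam3 * (algebraMap _ _ x.im * (1 + wR) - lam3 * algebraMap _ _ s) := by
    intro r hr
    have h1 : (algebraMap ℤ_[3] (ER 3) x.re) + algebraMap _ _ x.im
        = algebraMap _ _ r + 3 * algebraMap _ _ s := by
      rw [← map_add, hr, map_add, map_mul, alg3]
    have h2 := lam3_sq
    rw [lam3] at h2 ⊢
    linear_combination hx + h1 + (algebraMap ℤ_[3] (ER 3) s) * h2
      - 2 * (algebraMap ℤ_[3] (ER 3) x.im) * hw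
  refine ⟨algebraMap _ _ x.im * (1 + wR) - lam3 * algebraMap _ _ s, ?_⟩
  rcases hs with hs | hs | hs
  · left
    have := key 0 (by rw [hs]; ring)
    rwa [map_zero, zero_add] at this
  · right; left
    have := key 1 hs
    rwa [map_one] at this
  · right; right
    have := key (-1) hs
    rwa [map_neg, map_one] at this

theorem cub_three : Cub lam3 := by
  intro a
  have hl := lam3_sq
  obtain ⟨y, h | h | h⟩ := res_three a
  · obtain ⟨z, h' | h' | h'⟩ := res_three y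
    · left
      refine ⟨-z, ?_⟩
      rw [h, h']
      push_cast
      linear_combination z * hl
    · right
      obtain ⟨u, hu⟩ := cube_one hl res_three z
      refine ⟨3, 1, 3 * u, Or.inl rfl, ?_⟩
      rw [h, h']
      push_cast
      linear_combination lam3 ^ 3 * hu
    · right
      obtain ⟨u, hu⟩ := cube_neg_one hl res_three z
      refine ⟨3, -1, -(3 * u), Or.inr rfl, ?_⟩
      rw [h, h']
      push_cast
      linear_combination lam3 ^ 3 * hu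
  · right
    obtain ⟨u, hu⟩ := cube_one hl res_three y
    refine ⟨0, 1, 3 * u, Or.inl rfl, ?_⟩
    rw [h]
    push_cast
    linear_combination hu
  · right
    obtain ⟨u, hu⟩ := cube_neg_one hl res_three y
    refine ⟨0, -1, -(3 * u), Or.inr rfl, ?_⟩
    rw [h]
    push_cast
    linear_combination hu

theorem nf_three (κ' A B D : ER 3)
    (hne : ¬ ((∃ y, A = 3 * y) ∧ (∃ y, B = 3 * y) ∧ (∃ y, D = 3 * y))) :
    ∃ (j : ℕ) (s y : ER 3), (s = 1 ∨ s = -1) ∧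
      nf (4 + 9 * κ') A B D = s * (lam3 ^ j * (1 + 3 * y)) := by
  have hl := lam3_sq
  by_cases hd : lam3 ∣ A ∧ lam3 ∣ B ∧ lam3 ∣ D
  · obtain ⟨⟨A', rfl⟩, ⟨B', rfl⟩, ⟨D', rfl⟩⟩ := hd
    obtain ⟨j, s, y, hs, hy⟩ := ring_three hl res_three κ' A' B' D' (by
      rintro ⟨⟨a, rfl⟩, ⟨b, rfl⟩, ⟨d, rfl⟩⟩
      apply hne
      refine ⟨⟨-a, ?_⟩, ⟨-b, ?_⟩, ⟨-d, ?_⟩⟩
      · linear_combination a * hl
      · linear_combination b * hl
      · linear_combination d * hl)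
    refine ⟨j + 3, s, y, hs, ?_⟩
    have e : nf (4 + 9 * κ') (lam3 * A') (lam3 * B') (lam3 * D')
        = lam3 ^ 3 * nf (4 + 9 * κ') A' B' D' := by
      simp only [nf]; ring
    rw [e, hy]
    ring
  · exact ring_three hl res_three κ' A B D hd

theorem hk_three_aux (κ : ER 3) (k : ℚ_[3]) (hκ : iota 3 κ = algebraMap ℚ_[3] (EK 3) (4 * k))
    (h : ∀ A B D : ER 3, ¬ ((∃ y, A = 3 * y) ∧ (∃ y, B = 3 * y) ∧ (∃ y, D = 3 * y)) →
      ∃ (j : ℕ) (s y : ER 3), (s = 1 ∨ s = -1) ∧ nf κ A B D = s * (lam3 ^ j * (1 + 3 * y)))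
    (A B D : EK 3) (hne : ¬ (A = 0 ∧ B = 0 ∧ D = 0)) :
    Gp lam3 (nf (algebraMap ℚ_[3] (EK 3) k / 2) A B D) := by
  refine hk_of κ k hκ ?_ A B D hne
  intro A' B' D' h'
  obtain ⟨j, s, y, hs, hy⟩ := h A' B' D' (by
    rintro ⟨⟨a, ha⟩, ⟨b, hb⟩, ⟨d, hd⟩⟩
    exact h' ⟨⟨a, by rw [ha]; norm_num⟩, ⟨b, by rw [hb]; norm_num⟩, ⟨d, by rw [hd]; norm_num⟩⟩)
  rcases hs with rfl | rfl
  · refine ⟨1, one_ne_zero, j, y, ?_⟩
    rw [hy, map_one, one_mul, one_mul]
    norm_num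
  · refine ⟨-1, neg_ne_zero.mpr one_ne_zero, j, y, ?_⟩
    rw [hy, map_mul, map_neg, map_one, map_neg, map_one]
    norm_num

/-- Parameters congruent to `1` or `-1` modulo nine. -/
theorem hk_three (k : ℤ_[3]) (hk : 9 ∣ k - 1 ∨ 9 ∣ k + 1) (A B D : EK 3)
    (hne : ¬ (A = 0 ∧ B = 0 ∧ D = 0)) :
    Gp lam3 (nf (algebraMap ℚ_[3] (EK 3) (k : ℚ_[3]) / 2) A B D) := by
  have hκ : ∀ m : ℤ_[3], iota 3 (algebraMap _ _ m) = algebraMap ℚ_[3] (EK 3) (m : ℚ_[3]) :=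
    iota_int
  rcases hk with ⟨c, hc⟩ | ⟨c, hc⟩
  · refine hk_three_aux (algebraMap _ _ (4 * k)) _ (by rw [hκ]; push_cast; rfl) ?_ A B D hne
    intro A' B' D' h'
    have e : (algebraMap ℤ_[3] (ER 3) (4 * k)) = 4 + 9 * algebraMap _ _ (4 * c) := by
      rw [show 4 * k = 4 + 9 * (4 * c) by linear_combination 4 * hc, map_add, map_mul _ 9, alg4,
        alg9]
    rw [e]
    exact nf_three _ A' B' D' h'
  · refine hk_three_aux (algebraMap _ _ (4 * k)) _ (by rw [hκ]; push_cast; rfl) ?_ A B D hne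
    intro A' B' D' h'
    have e : (algebraMap ℤ_[3] (ER 3) (4 * k)) = -(4 + 9 * algebraMap _ _ (-4 * c)) := by
      rw [show 4 * k = -(4 + 9 * (-4 * c)) by linear_combination 4 * hc, map_neg, map_add,
        map_mul _ 9, alg4, alg9]
    have e2 : nf (algebraMap ℤ_[3] (ER 3) (4 * k)) A' B' D'
        = nf (4 + 9 * algebraMap _ _ (-4 * c)) A' (-B') D' := by
      rw [e]; simp only [nf]; ring
    rw [e2]
    refine nf_three _ A' (-B') D' ?_
    rintro ⟨h1, ⟨b, hb⟩, h3⟩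
    exact h' ⟨h1, ⟨-b, by linear_combination (-1) * hb⟩, h3⟩

end NG
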