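import Pool.Agent.NG.Defs
import Pool.Agent.NG.Int3

/-!
The class of constructible points (MP_1b7df1_nt, helper56).
-/

open Polynomial

namespace NG

variable {F K : Type*} [Field F] [Field K] [Algebra F K] {G : K → Prop}

theorem one_add_ne (w : K) (hw : w ^ 2 + w + 1 = 0) : (1 + w : K) ≠ 0 := by
  intro h
  have h1 : w ^ 2 = 0 := by linear_combination hw - h
  have h2 : w = 0 := pow_eq_zero_iff (by norm_num) |>.mp h1
  rw [h2] at h
  simp at h

theorem exponent (n : ℕ) (hn : ¬ 3 ∣ n) : ∃ β m : ℕ, n * β = 1 + 3 * m := by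
  have : n % 3 = 1 ∨ n % 3 = 2 := by omega
  rcases this with h | h
  · exact ⟨1, n / 3, by omega⟩
  · exact ⟨2, (2 * n - 1) / 3, by omega⟩

/-- All constructible points lie in the class of the points at infinity. -/
theorem constructible_class [CharZero F] [CharZero K] (hG : Grp F G) (w : K)
    (hw : w ^ 2 + w + 1 = 0)
    (hind : ∀ x y : F, lin w x y = 0 → x = 0 ∧ y = 0) (k : F)
    (hk : ∀ A B D : K, ¬ (A = 0 ∧ B = 0 ∧ D = 0) → G (nf (algebraMap F K k / 2) A B D))
    (hinf : ∀ a b c : F, a ^ 3 + b ^ 3 + 2 * c ^ 3 = 0 → ¬ (a = 0 ∧ b = 0 ∧ c = 0) →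
      G (lin w a b * (1 + w)⁻¹))
    (hswap : ∀ a b : F, G (lin w a b * (1 + w)⁻¹) → G (lin w b a * (1 + w)⁻¹))
    {x y z v : F} (h : Constructible k x y z v) :
    x ^ 3 + y ^ 3 + 2 * z ^ 3 = k * v ^ 3 ∧ ¬ (x = 0 ∧ y = 0 ∧ z = 0 ∧ v = 0) ∧
      G (lin w x y * (1 + w)⁻¹) := by
  have hw1 := one_add_ne w hw
  have hk0 : k ≠ 0 := by
    rintro rfl
    have h1 := hG.ne _ (hk 0 1 0 (by rintro ⟨_, h2, _⟩; exact one_ne_zero h2))
    apply h1
    simp [nf]
  induction h with
  | infinity x y z hs hne =>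
    refine ⟨by rw [hs]; ring, ?_, hinf x y z hs hne⟩
    rintro ⟨h1, h2, h3, _⟩
    exact hne ⟨h1, h2, h3⟩
  | family f g h q a b c t n ha hn hid hkt hne =>
    refine ⟨?_, hne, ?_⟩
    · have := congrArg (eval t) hid
      simp only [eval_add, eval_pow, eval_mul, eval_ofNat, eval_C, eval_X] at this
      rw [this, hkt]
    · obtain ⟨β, m, hβ⟩ := exponent n hn
      have hn0 : n ≠ 0 := by rintro rfl; exact hn (dvd_zero 3)
      set T := a * t + b with hT
      have hT0 : T ≠ 0 := by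
        intro h0
        rw [h0, zero_pow hn0, mul_zero] at hkt
        exact hk0 hkt.symm
      obtain ⟨u, hu⟩ : ∃ u : F[X], u = C a⁻¹ * (C T * (C k⁻¹ * X) ^ β - C b) := ⟨_, rfl⟩
      have huk : u.eval k = t := by
        rw [hu]
        simp only [eval_mul, eval_sub, eval_pow, eval_C, eval_X]
        rw [inv_mul_cancel₀ hk0, one_pow, mul_one, hT]
        field_simp
        ring
      have hu1 : C a * u + C b = C T * (C k⁻¹ * X) ^ β := by
        rw [hu, ← mul_assoc, ← C_mul, mul_inv_cancel₀ ha, C_1, one_mul]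
        ring
      have hid2 : (f.comp u) ^ 3 + (g.comp u) ^ 3 + 2 * (h.comp u) ^ 3
          = X * (q.comp u * (C k⁻¹ * X) ^ m) ^ 3 := by
        have h1 := congrArg (fun p : F[X] => p.comp u) hid
        simp only [add_comp, mul_comp, pow_comp, C_comp, X_comp, ofNat_comp] at h1
        rw [hu1] at h1
        have h2 : C c * (C T * (C k⁻¹ * X) ^ β) ^ n = X * ((C k⁻¹ * X) ^ m) ^ 3 := by
          have h3 : (C c * (C T * (C k⁻¹ * X) ^ β) ^ n : F[X])
              = C (c * T ^ n) * (C k⁻¹ * X) ^ (n * β) := by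
            rw [mul_pow, ← pow_mul, C_mul, C_pow, mul_comm β n]; ring
          rw [h3, hkt, hβ, pow_add, pow_one, mul_comm 3 m, pow_mul, ← mul_assoc, ← mul_assoc,
            ← C_mul, mul_inv_cancel₀ hk0, C_1, one_mul]
        rw [h2, Nat.cast_ofNat] at h1
        rw [h1]
        ring
      have hne2 : ¬ ((f.comp u).eval k = 0 ∧ (g.comp u).eval k = 0 ∧ (h.comp u).eval k = 0 ∧
          (q.comp u * (C k⁻¹ * X) ^ m).eval k = 0) := by
        rw [eval_comp, eval_comp, eval_comp, eval_mul, eval_comp, huk]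
        simp only [eval_pow, eval_mul, eval_C, eval_X]
        rw [inv_mul_cancel₀ hk0, one_pow, mul_one]
        exact hne
      obtain ⟨a', b', c', h1, h2, h3⟩ := family_core hG w hw hind k hk _ _ _ _ hid2 hne2
      rw [eval_comp, eval_comp, huk] at h3
      have h4 := hG.mul _ _ h3 (hinf a' b' c' h1 h2)
      have h5 : lin w a' b' ≠ 0 := by
        intro h0
        apply hG.ne _ h3
        rw [h0, inv_zero, mul_zero]
      have e : lin w (f.eval t) (g.eval t) * (lin w a' b')⁻¹ * (lin w a' b' * (1 + w)⁻¹)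
          = lin w (f.eval t) (g.eval t) * (1 + w)⁻¹ := by
        field_simp
      rwa [e] at h4
  | curve f g h q s t hid hs hne ih =>
    obtain ⟨_, h2, h3⟩ := ih
    refine ⟨?_, hne, ?_⟩
    · have := congrArg (eval t) hid
      simpa only [eval_add, eval_pow, eval_mul, eval_ofNat, eval_C] using this
    · have h4 := curve_core hG w hw hind k hk f g h q hid s t h2 hne
      have h6 := hG.mul _ _ h4 h3
      have h5 : lin w (f.eval s) (g.eval s) ≠ 0 := by
        intro h0
        apply hG.ne _ h3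
        rw [h0, zero_mul]
      have e : lin w (f.eval t) (g.eval t) * (lin w (f.eval s) (g.eval s))⁻¹ *
          (lin w (f.eval s) (g.eval s) * (1 + w)⁻¹) = lin w (f.eval t) (g.eval t) * (1 + w)⁻¹ := by
        field_simp
      rwa [e] at h6
  | line a1 a2 a3 a4 b1 b2 b3 b4 c r s t hc hid hr hs hne ihr ihs =>
    obtain ⟨_, _, r3⟩ := ihr
    obtain ⟨_, _, s3⟩ := ihs
    have hsurf : (a1 + b1 * t) ^ 3 + (a2 + b2 * t) ^ 3 + 2 * (a3 + b3 * t) ^ 3
        = k * (a4 + b4 * t) ^ 3 := by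
      have := congrArg (eval t) hid
      simp only [eval_add, eval_sub, eval_pow, eval_mul, eval_ofNat, eval_C, eval_X, sub_self,
        mul_zero] at this
      linear_combination this
    refine ⟨hsurf, hne, ?_⟩
    have hr0 : lin w (a1 + b1 * r) (a2 + b2 * r) ≠ 0 := by
      intro h0
      apply hG.ne _ r3
      rw [h0, zero_mul]
    have hs0 : lin w (a1 + b1 * s) (a2 + b2 * s) ≠ 0 := by
      intro h0
      apply hG.ne _ s3
      rw [h0, zero_mul]
    have ht0 := lin_ne_zero hG w hind k hk _ _ _ _ hsurf hne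
    by_cases hb : lin w b1 b2 = 0
    · obtain ⟨h1, h2⟩ := hind _ _ hb
      simp only [h1, h2, zero_mul, add_zero] at r3 ⊢
      exact r3
    · have h1 := chord_core hG w hw k hk a1 a2 a3 a4 b1 b2 b3 b4 c r s t hc hid hb hr0 hs0 ht0
      have h2 := hG.mul _ _ (hG.mul _ _ h1 (hG.inv r3)) (hG.inv s3)
      have h3 := hG.mul _ _ h2 (hG.base (-1) (neg_ne_zero.mpr one_ne_zero))
      have hw3 : (1 + w) ^ 3 = -1 := by linear_combination (w + 2) * hw
      rw [map_neg, map_one] at h3
      have e : lin w (a1 + b1 * r) (a2 + b2 * r) * lin w (a1 + b1 * s) (a2 + b2 * s) *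
          lin w (a1 + b1 * t) (a2 + b2 * t) * (lin w (a1 + b1 * r) (a2 + b2 * r) * (1 + w)⁻¹)⁻¹ *
          (lin w (a1 + b1 * s) (a2 + b2 * s) * (1 + w)⁻¹)⁻¹ * -1
          = lin w (a1 + b1 * t) (a2 + b2 * t) * (1 + w)⁻¹ := by
        clear h1 h2 h3 r3 s3
        generalize lin w (a1 + b1 * r) (a2 + b2 * r) = A at *
        generalize lin w (a1 + b1 * s) (a2 + b2 * s) = B at *
        generalize lin w (a1 + b1 * t) (a2 + b2 * t) = D at *
        field_simp
        linear_combination (-1) * hw3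
      rwa [e] at h3
  | swap x y z v _ ih =>
    obtain ⟨h1, h2, h3⟩ := ih
    refine ⟨by linear_combination h1, ?_, hswap x y h3⟩
    rintro ⟨h4, h5, h6, h7⟩
    exact h2 ⟨h5, h4, h6, h7⟩
  | scale l x y z v hl _ ih =>
    obtain ⟨h1, h2, h3⟩ := ih
    refine ⟨by linear_combination l ^ 3 * h1, ?_, ?_⟩
    · rintro ⟨h4, h5, h6, h7⟩
      refine h2 ⟨?_, ?_, ?_, ?_⟩
      · exact (mul_eq_zero.mp h4).resolve_left hl
      · exact (mul_eq_zero.mp h5).resolve_left hl
      · exact (mul_eq_zero.mp h6).resolve_left hl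
      · exact (mul_eq_zero.mp h7).resolve_left hl
    · rw [lin_mul, mul_assoc]
      exact hG.mul _ _ (hG.base l hl) h3

end NG
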