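import Mathlib

/-!
Norm form of a pure cubic extension and the two norm lemmas (MP_1b7df1_nt, helper56).
-/

open Polynomial

namespace NG

variable {K : Type*} [Field K]

/-- The norm form `A^3 + τ B^3 + τ^2 C^3 - 3 τ A B C`. -/
def nf {R : Type*} [CommRing R] (τ A B C : R) : R := A ^ 3 + τ * B ^ 3 + τ ^ 2 * C ^ 3 - 3 * τ * A * B * C

theorem nf_map {R L : Type*} [CommRing R] [CommRing L] (φ : R →+* L) (τ A B C : R) :
    φ (nf τ A B C) = nf (φ τ) (φ A) (φ B) (φ C) := by
  simp [nf, map_ofNat]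

/-- A polynomial is the sum of three pieces, by exponents modulo three. -/
theorem split3 (P : K[X]) : ∃ P0 P1 P2 : K[X],
    P = expand K 3 P0 + X * expand K 3 P1 + X ^ 2 * expand K 3 P2 := by
  induction P using Polynomial.induction_on' with
  | add p q hp hq =>
    obtain ⟨p0, p1, p2, hp⟩ := hp
    obtain ⟨q0, q1, q2, hq⟩ := hq
    refine ⟨p0 + q0, p1 + q1, p2 + q2, ?_⟩
    rw [hp, hq]
    simp only [map_add]
    ring
  | monomial n a =>
    have h3 : n % 3 = 0 ∨ n % 3 = 1 ∨ n % 3 = 2 := by omega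
    rcases h3 with h | h | h
    · refine ⟨monomial (n / 3) a, 0, 0, ?_⟩
      have e : n = n / 3 * 3 := by omega
      rw [expand_monomial, ← e]
      simp only [map_zero, mul_zero, add_zero]
    · refine ⟨0, monomial (n / 3) a, 0, ?_⟩
      have e : n = n / 3 * 3 + 1 := by omega
      rw [expand_monomial]
      simp only [map_zero, mul_zero, add_zero, zero_add, X_mul_monomial]
      rw [← e]
    · refine ⟨0, 0, monomial (n / 3) a, ?_⟩
      have e : n = n / 3 * 3 + 1 + 1 := by omega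
      rw [expand_monomial]
      simp only [map_zero, mul_zero, add_zero, zero_add, pow_two, mul_assoc, X_mul_monomial]
      rw [← e]

/-- Values of a polynomial at the three cube roots of `τ` have product a value of the norm form. -/
theorem prod_three {L : Type*} [Field L] (φ : K →+* L) (P : K[X]) (τ : K) :
    ∃ A B C : K, ∀ θ w : L, w ^ 2 + w + 1 = 0 → θ ^ 3 = φ τ →
      P.eval₂ φ θ * P.eval₂ φ (w * θ) * P.eval₂ φ (w ^ 2 * θ) = φ (nf τ A B C) := by
  obtain ⟨P0, P1, P2, h⟩ := split3 P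
  refine ⟨P0.eval τ, P1.eval τ, P2.eval τ, ?_⟩
  intro θ w hw hθ
  have hw3 : w ^ 3 = 1 := by linear_combination (w - 1) * hw
  have key : ∀ y : L, y ^ 3 = φ τ → P.eval₂ φ y
      = φ (P0.eval τ) + y * φ (P1.eval τ) + y ^ 2 * φ (P2.eval τ) := by
    intro y hy
    have ex : ∀ Q : K[X], (expand K 3 Q).eval₂ φ y = φ (Q.eval τ) := by
      intro Q
      rw [eval₂_eq_eval_map, map_expand, expand_eval, hy, eval_map, eval₂_at_apply]
    conv_lhs => rw [h]
    simp only [eval₂_add, eval₂_mul, eval₂_X, eval₂_pow, ex]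
  have h1 : (w * θ) ^ 3 = φ τ := by rw [mul_pow, hw3, hθ, one_mul]
  have h2 : (w ^ 2 * θ) ^ 3 = φ τ := by
    rw [mul_pow, hθ, ← pow_mul, show 2 * 3 = 3 * 2 from rfl, pow_mul, hw3]; ring
  rw [key θ hθ, key _ h1, key _ h2, nf_map]
  simp only [nf]
  generalize φ (P0.eval τ) = a
  generalize φ (P1.eval τ) = b
  generalize φ (P2.eval τ) = c
  rw [← hθ]
  have hw4 : w ^ 4 = w := by linear_combination w * hw3
  have hw2 : w ^ 2 = -1 - w := by linear_combination hw
  have hw5 : w ^ 5 = -1 - w := by linear_combination w ^ 2 * hw3 + hw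
  have hw6 : w ^ 6 = 1 := by linear_combination (w ^ 3 + 1) * hw3
  ring_nf
  simp only [hw3, hw4, hw2, hw5, hw6]
  ring

section matrix

variable {n : Type*} [Fintype n] [DecidableEq n]

/-- `det (τ - H^3)` is a value of the norm form. -/
theorem det_cube (H : Matrix n n K) (w : K) (hw : w ^ 2 + w + 1 = 0) (τ : K) :
    ∃ A B C : K, (Matrix.scalar n τ - H ^ 3).det = nf τ A B C := by
  classical
  let L := AlgebraicClosure K
  let φ : K →+* L := algebraMap K L
  obtain ⟨A', B', C', h⟩ := prod_three φ H.charpoly τ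
  refine ⟨A', B', C', ?_⟩
  obtain ⟨θ, hθ⟩ := IsAlgClosed.exists_pow_nat_eq (φ τ) (n := 3) (by norm_num)
  have hφ : Function.Injective φ := φ.injective
  apply hφ
  have hw' : (φ w) ^ 2 + φ w + 1 = 0 := by
    have := congrArg φ hw
    simpa using this
  rw [← h θ (φ w) hw' hθ]
  have hw3 : (φ w) ^ 3 = 1 := by linear_combination (φ w - 1) * hw'
  have e : ∀ y : L, H.charpoly.eval₂ φ y = (Matrix.scalar n y - H.map φ).det := by
    intro y
    rw [← Matrix.eval_charpoly, Matrix.charpoly_map, eval_map]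
  rw [e, e, e, RingHom.map_det]
  set M : Matrix n n L := H.map φ with hM
  have hmap : φ.mapMatrix (Matrix.scalar n τ - H ^ 3) = Matrix.scalar n (φ τ) - M ^ 3 := by
    rw [map_sub, map_pow]
    congr 1
    ext i j
    by_cases hij : i = j
    · subst hij; simp
    · simp [hij]
  rw [hmap]
  -- scalars as smul of one
  have hs : ∀ y : L, Matrix.scalar n y = y • (1 : Matrix n n L) := by
    intro y
    ext i j
    by_cases hij : i = j
    · subst hij; simp
    · simp [hij]
  simp only [hs]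
  have d1 : ((φ w * θ) • (1 : Matrix n n L) - M).det
      = (φ w) ^ (Fintype.card n) * (θ • (1 : Matrix n n L) - (φ w) ^ 2 • M).det := by
    rw [← Matrix.det_smul]
    congr 1
    rw [smul_sub, smul_smul, smul_smul]
    congr 1
    rw [show φ w * (φ w) ^ 2 = 1 by linear_combination hw3, one_smul]
  have d2 : (((φ w) ^ 2 * θ) • (1 : Matrix n n L) - M).det
      = ((φ w) ^ 2) ^ (Fintype.card n) * (θ • (1 : Matrix n n L) - (φ w) • M).det := by
    rw [← Matrix.det_smul]
    congr 1
    rw [smul_sub, smul_smul, smul_smul]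
    congr 1
    rw [show (φ w) ^ 2 * φ w = 1 by linear_combination hw3, one_smul]
  rw [d1, d2]
  have hc : (φ w) ^ (Fintype.card n) * ((φ w) ^ 2) ^ (Fintype.card n) = 1 := by
    rw [← mul_pow, show φ w * (φ w) ^ 2 = 1 by linear_combination hw3, one_pow]
  have hfac : (φ τ) • (1 : Matrix n n L) - M ^ 3
      = (θ • (1 : Matrix n n L) - M) * (θ • 1 - (φ w) ^ 2 • M) * (θ • 1 - (φ w) • M) := by
    have hp : (C (φ τ) - X ^ 3 : L[X])
        = (C θ - X) * (C θ - C ((φ w) ^ 2) * X) * (C θ - C (φ w) * X) := by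
      rw [← hθ, C_pow, C_pow]
      have c1 : (C (φ w) : L[X]) ^ 2 + C (φ w) + 1 = 0 := by
        rw [← C_pow, ← C_add, ← C_1, ← C_add, hw', C_0]
      generalize (C (φ w) : L[X]) = v at c1
      generalize (C θ : L[X]) = a
      linear_combination (a ^ 2 * X + (v - 1) * X ^ 3 - v * a * X ^ 2) * c1
    have := congrArg (aeval M) hp
    simpa [Algebra.algebraMap_eq_smul_one, _root_.smul_pow, smul_mul_assoc] using this
  rw [hfac, Matrix.det_mul, Matrix.det_mul]
  linear_combination (-(θ • (1 : Matrix n n L) - M).det * (θ • (1 : Matrix n n L) - φ w ^ 2 • M).det *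
    (θ • (1 : Matrix n n L) - φ w • M).det) * hc

end matrix

/-- First norm lemma: a factor of `X - 2 u^3`. -/
theorem norm_linear [CharZero K] (w : K) (hw : w ^ 2 + w + 1 = 0) (π u : K[X]) (hπ : π.Monic)
    (h : π ∣ X - 2 * u ^ 3) (s : K) :
    ∃ A B D : K, π.eval s = 2 ^ π.natDegree * nf (s / 2) A B D := by
  classical
  have h0 : π ≠ 0 := hπ.ne_zero
  let pb := AdjoinRoot.powerBasis h0
  let H := Algebra.leftMulMatrix pb.basis (AdjoinRoot.mk π u)
  obtain ⟨A, B, D, hd⟩ := det_cube H w hw (s / 2)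
  refine ⟨A, B, D, ?_⟩
  have hroot : AdjoinRoot.root π = 2 * (AdjoinRoot.mk π u) ^ 3 := by
    have := AdjoinRoot.mk_eq_zero.mpr h
    rw [map_sub, AdjoinRoot.mk_X, map_mul, map_pow, map_ofNat] at this
    exact sub_eq_zero.mp this
  have hT : Algebra.leftMulMatrix pb.basis pb.gen = 2 * H ^ 3 := by
    change Algebra.leftMulMatrix pb.basis (AdjoinRoot.root π) = _
    rw [hroot, map_mul, map_pow, map_ofNat]
  have hmin : minpoly K pb.gen = π := by
    change minpoly K (AdjoinRoot.root π) = π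
    rw [AdjoinRoot.minpoly_root h0, hπ.leadingCoeff]
    simp
  have hev : π.eval s = (Matrix.scalar _ s - 2 * H ^ 3).det := by
    rw [← hT, ← Matrix.eval_charpoly, charpoly_leftMulMatrix, hmin]
  rw [hev, ← hd]
  have e : (Matrix.scalar (Fin pb.dim) s - 2 * H ^ 3)
      = (2 : K) • (Matrix.scalar (Fin pb.dim) (s / 2) - H ^ 3) := by
    ext i j
    simp only [Matrix.sub_apply, Matrix.smul_apply, smul_eq_mul, Matrix.scalar_apply,
      Matrix.diagonal_apply]
    have : (2 * H ^ 3 : Matrix (Fin pb.dim) (Fin pb.dim) K) i j = 2 * (H ^ 3) i j := by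
      rw [two_mul, Matrix.add_apply, two_mul]
    rw [this]
    split_ifs <;> ring
  rw [e, Matrix.det_smul, Fintype.card_fin]
  rfl

/-- The norm of `K[X]/(X^3-τ)` over `K` is given by the norm form. -/
theorem norm_cubic (τ : K) [hq : Fact (Irreducible (X ^ 3 - Polynomial.C τ : K[X]))]
    (m : AdjoinRoot (X ^ 3 - Polynomial.C τ : K[X])) :
    ∃ A B D : K, Algebra.norm K m = nf τ A B D := by
  classical
  have hq0 : (X ^ 3 - Polynomial.C τ : K[X]) ≠ 0 := hq.out.ne_zero
  have hdim : (X ^ 3 - Polynomial.C τ : K[X]).natDegree = 3 := natDegree_X_pow_sub_C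
  let b : Module.Basis (Fin 3) K (AdjoinRoot (X ^ 3 - Polynomial.C τ : K[X])) :=
    (AdjoinRoot.powerBasis hq0).basis.reindex (finCongr hdim)
  have hb : ∀ i : Fin 3, b i = (AdjoinRoot.root (X ^ 3 - Polynomial.C τ : K[X])) ^ (i : ℕ) := by
    intro i
    simp only [b, Module.Basis.reindex_apply, PowerBasis.coe_basis]
    rfl
  set θ := AdjoinRoot.root (X ^ 3 - Polynomial.C τ : K[X]) with hθ
  have hθ3 : θ ^ 3 = algebraMap K _ τ := by
    have := AdjoinRoot.mk_self (f := (X ^ 3 - Polynomial.C τ : K[X]))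
    rw [map_sub, map_pow, AdjoinRoot.mk_X, AdjoinRoot.mk_C] at this
    exact sub_eq_zero.mp this
  obtain ⟨A, B, D, hm⟩ : ∃ A B D : K, m = A • b 0 + B • b 1 + D • b 2 := by
    refine ⟨b.repr m 0, b.repr m 1, b.repr m 2, ?_⟩
    conv_lhs => rw [← b.sum_repr m]
    rw [Fin.sum_univ_three]
  refine ⟨A, B, D, ?_⟩
  have h0 : b 0 = 1 := by rw [hb]; simp
  have h1 : b 1 = θ := by rw [hb]; simp
  have h2 : b 2 = θ ^ 2 := by rw [hb]; simp
  have m0 : m * b 0 = A • b 0 + B • b 1 + D • b 2 := by rw [h0, mul_one, hm, h0]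
  have m1 : m * b 1 = (τ * D) • b 0 + A • b 1 + B • b 2 := by
    rw [hm, h0, h1, h2]
    simp only [Algebra.smul_def, map_mul, ← hθ3]
    ring
  have m2 : m * b 2 = (τ * B) • b 0 + (τ * D) • b 1 + A • b 2 := by
    rw [hm, h0, h1, h2]
    simp only [Algebra.smul_def, map_mul, ← hθ3]
    ring
  rw [Algebra.norm_eq_matrix_det b, Matrix.det_fin_three]
  simp only [Algebra.leftMulMatrix_eq_repr_mul, m0, m1, m2, map_add, map_smul,
    Module.Basis.repr_self, Finsupp.add_apply, Finsupp.smul_apply, smul_eq_mul, nf]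
  simp [Finsupp.single_apply]
  ring

/-- Second norm lemma: a factor of `τ - u^3` when `τ` is not a cube. -/
theorem norm_const (τ : K) (hτ : ∀ ρ : K, ρ ^ 3 ≠ τ) (π u : K[X]) (hπ : π.Monic)
    (hirr : Irreducible π) (h : π ∣ Polynomial.C τ - u ^ 3) (s : K) :
    ∃ A B D : K, π.eval s = nf τ A B D := by
  classical
  have hq : Irreducible (X ^ 3 - Polynomial.C τ : K[X]) :=
    X_pow_sub_C_irreducible_of_prime (by norm_num) hτ
  haveI : Fact (Irreducible (X ^ 3 - Polynomial.C τ : K[X])) := ⟨hq⟩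
  haveI : Fact (Irreducible π) := ⟨hirr⟩
  let M := AdjoinRoot (X ^ 3 - Polynomial.C τ : K[X])
  let S := AdjoinRoot π
  have hu : (AdjoinRoot.mk π u) ^ 3 = algebraMap K S τ := by
    have := AdjoinRoot.mk_eq_zero.mpr h
    rw [map_sub, map_pow, AdjoinRoot.mk_C] at this
    exact (sub_eq_zero.mp this).symm
  let ι : M →+* S := AdjoinRoot.lift (algebraMap K S) (AdjoinRoot.mk π u) (by
    rw [eval₂_sub, eval₂_pow, eval₂_X, eval₂_C, hu, sub_self])
  letI : Algebra M S := ι.toAlgebra
  haveI : IsScalarTower K M S := by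
    refine IsScalarTower.of_algebraMap_eq' ?_
    ext x
    change algebraMap K S x = ι (AdjoinRoot.of _ x)
    rw [AdjoinRoot.lift_of]
  have h0 : π ≠ 0 := hπ.ne_zero
  let pb := AdjoinRoot.powerBasis h0
  haveI : Module.Finite K S := pb.finite
  haveI : Module.Finite M S := Module.Finite.of_restrictScalars_finite K M S
  let y : S := algebraMap K S s - AdjoinRoot.root π
  obtain ⟨A, B, D, hd⟩ := norm_cubic τ (Algebra.norm M y)
  refine ⟨A, B, D, ?_⟩
  rw [← hd, Algebra.norm_norm, Algebra.norm_eq_matrix_det pb.basis]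
  have hmin : minpoly K pb.gen = π := by
    change minpoly K (AdjoinRoot.root π) = π
    rw [AdjoinRoot.minpoly_root h0, hπ.leadingCoeff]
    simp
  have e : Algebra.leftMulMatrix pb.basis y
      = Matrix.scalar _ s - Algebra.leftMulMatrix pb.basis pb.gen := by
    rw [map_sub]
    congr 1
    rw [AlgHom.commutes]
    rfl
  rw [e, ← Matrix.eval_charpoly, charpoly_leftMulMatrix, hmin]

end NG
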