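import Pool.Agent.NG.Norm

/-!
Congruences for the norm form modulo powers of two and of the square root of minus three
(MP_1b7df1_nt, helper56).
-/

namespace NG

section two

variable {R : Type*} [CommRing R]

/-- Values of the norm form with parameter `4 κ`, `κ` odd, in a ring where every element which is
not divisible by two has cube one modulo two. -/
theorem ring_two (hres : ∀ x : R, (∃ y, x = 2 * y) ∨ (∃ y, x ^ 3 = 1 + 2 * y)) (κ' A B D : R)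
    (hne : ¬ ((∃ y, A = 2 * y) ∧ (∃ y, B = 2 * y) ∧ (∃ y, D = 2 * y))) :
    ∃ (j : ℕ) (y : R), nf (4 * (1 + 2 * κ')) A B D = 2 ^ j * (1 + 2 * y) := by
  rcases hres A with ⟨A1, rfl⟩ | ⟨a, ha⟩
  · rcases hres B with ⟨B1, rfl⟩ | ⟨b, hb⟩
    · rcases hres D with ⟨D1, rfl⟩ | ⟨d, hd⟩
      · exact absurd ⟨⟨A1, rfl⟩, ⟨B1, rfl⟩, ⟨D1, rfl⟩⟩ hne
      · rcases hres A1 with ⟨A2, rfl⟩ | ⟨a, ha⟩
        · refine ⟨4, 2 * A2 ^ 3 + (1 + 2 * κ') * B1 ^ 3 + (1 + 2 * κ') ^ 2 * d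
            + (2 * κ' + 2 * κ' ^ 2) - 3 * (1 + 2 * κ') * A2 * B1 * D, ?_⟩
          simp only [nf]
          linear_combination (16 * (1 + 2 * κ') ^ 2) * hd
        · refine ⟨3, a + 2 * (1 + 2 * κ') * B1 ^ 3 + (1 + 2 * κ') ^ 2 * D ^ 3
            - 3 * (1 + 2 * κ') * A1 * B1 * D, ?_⟩
          simp only [nf]
          linear_combination 8 * ha
    · refine ⟨2, A1 ^ 3 + κ' + (1 + 2 * κ') * b + 2 * (1 + 2 * κ') ^ 2 * D ^ 3
            - 3 * (1 + 2 * κ') * A1 * B * D, ?_⟩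
      simp only [nf]
      linear_combination (4 * (1 + 2 * κ')) * hb
  · refine ⟨0, a + 2 * (1 + 2 * κ') * B ^ 3 + 8 * (1 + 2 * κ') ^ 2 * D ^ 3
            - 6 * (1 + 2 * κ') * A * B * D, ?_⟩
    simp only [nf]
    linear_combination ha

end two

section three

variable {R : Type*} [CommRing R] {lam : R}

/-- `a - a^3` is divisible by `lam`. -/
theorem fermat3 (_hlam : lam ^ 2 = -3)
    (hres : ∀ x : R, ∃ y, x = lam * y ∨ x = 1 + lam * y ∨ x = -1 + lam * y) (a : R) :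
    lam ∣ a ^ 3 - a := by
  obtain ⟨y, h | h | h⟩ := hres a
  · exact ⟨lam ^ 2 * y ^ 3 - y, by rw [h]; ring⟩
  · exact ⟨3 * y + 3 * lam * y ^ 2 + lam ^ 2 * y ^ 3 - y, by rw [h]; ring⟩
  · exact ⟨3 * y - 3 * lam * y ^ 2 + lam ^ 2 * y ^ 3 - y, by rw [h]; ring⟩

theorem nine_of_lam (hlam : lam ^ 2 = -3) {x : R} (h : lam ∣ x) : 9 ∣ 3 * lam * x := by
  obtain ⟨y, rfl⟩ := h
  exact ⟨-y, by linear_combination (3 * y) * hlam⟩

theorem cube_one (hlam : lam ^ 2 = -3)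
    (hres : ∀ x : R, ∃ y, x = lam * y ∨ x = 1 + lam * y ∨ x = -1 + lam * y) (a : R) :
    9 ∣ (1 + lam * a) ^ 3 - 1 := by
  have e : (1 + lam * a) ^ 3 - 1 = 9 * (-a ^ 2) + -(3 * lam * (a ^ 3 - a)) := by
    linear_combination (3 * a ^ 2 + lam * a ^ 3) * hlam
  rw [e]
  exact dvd_add (dvd_mul_right _ _) ((nine_of_lam hlam (fermat3 hlam hres a)).neg_right)

theorem cube_neg_one (hlam : lam ^ 2 = -3)
    (hres : ∀ x : R, ∃ y, x = lam * y ∨ x = 1 + lam * y ∨ x = -1 + lam * y) (a : R) :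
    9 ∣ (-1 + lam * a) ^ 3 + 1 := by
  have h := cube_one hlam hres (-a)
  have e : (-1 + lam * a) ^ 3 + 1 = -((1 + lam * -a) ^ 3 - 1) := by ring
  rw [e]
  exact h.neg_right

/-- The main congruence, `κ = 4 + 9 κ'`: three opposite cases. -/
theorem opp_ABD (hlam : lam ^ 2 = -3)
    (hres : ∀ x : R, ∃ y, x = lam * y ∨ x = 1 + lam * y ∨ x = -1 + lam * y) (κ' a b d : R) :
    (∃ y, nf (4 + 9 * κ') (1 + lam * a) (-1 + lam * b) (lam * d) = lam ^ 2 * (1 + 3 * y)) ∧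
    (∃ y, nf (4 + 9 * κ') (1 + lam * a) (lam * b) (-1 + lam * d) = -(lam ^ 2 * (1 + 3 * y))) ∧
    (∃ y, nf (4 + 9 * κ') (lam * a) (1 + lam * b) (-1 + lam * d) = lam ^ 2 * (1 + 3 * y)) := by
  set κ := 4 + 9 * κ' with hκ
  refine ⟨?_, ?_, ?_⟩
  · have h1 := cube_one hlam hres a
    have h2 := cube_neg_one hlam hres b
    have h3 : lam ∣ d * (κ * d ^ 2 + (1 + lam * a) * (-1 + lam * b)) := by
      have e : d * (κ * d ^ 2 + (1 + lam * a) * (-1 + lam * b))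
          = (d ^ 3 - d) + lam * (-lam * d ^ 3 + (3 * κ' * -lam) * d ^ 3
            + d * (b - a + lam * a * b)) := by
        rw [hκ]
        linear_combination (d ^ 3 + 3 * κ' * d ^ 3) * hlam
      rw [e]
      exact dvd_add (fermat3 hlam hres d) (dvd_mul_right _ _)
    have h4 := nine_of_lam hlam h3
    have h5 : (9 : R) ∣ nf κ (1 + lam * a) (-1 + lam * b) (lam * d) + 3 := by
      have e : nf κ (1 + lam * a) (-1 + lam * b) (lam * d) + 3
          = ((1 + lam * a) ^ 3 - 1) + κ * ((-1 + lam * b) ^ 3 + 1) + 9 * (-κ')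
            - κ * (3 * lam * (d * (κ * d ^ 2 + (1 + lam * a) * (-1 + lam * b)))) := by
        simp only [nf]
        rw [hκ]
        linear_combination ((4 + 9 * κ') ^ 2 * lam * d ^ 3) * hlam
      rw [e]
      exact dvd_sub (dvd_add (dvd_add h1 (h2.mul_left _)) (dvd_mul_right _ _)) (h4.mul_left _)
    obtain ⟨y, hy⟩ := h5
    exact ⟨-y, by linear_combination hy - (1 - 3 * y) * hlam⟩
  · have h1 := cube_one hlam hres a
    have h2 := cube_neg_one hlam hres d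
    have h3 : lam ∣ b * (b ^ 2 + (1 + lam * a) * (-1 + lam * d)) := by
      have e : b * (b ^ 2 + (1 + lam * a) * (-1 + lam * d))
          = (b ^ 3 - b) + lam * (b * (d - a + lam * a * d)) := by
        ring
      rw [e]
      exact dvd_add (fermat3 hlam hres b) (dvd_mul_right _ _)
    have h4 := nine_of_lam hlam h3
    have h5 : (9 : R) ∣ nf κ (1 + lam * a) (lam * b) (-1 + lam * d) - 3 := by
      have e : nf κ (1 + lam * a) (lam * b) (-1 + lam * d) - 3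
          = ((1 + lam * a) ^ 3 - 1) + κ ^ 2 * ((-1 + lam * d) ^ 3 + 1)
            + 9 * (-2 - 8 * κ' - 9 * κ' ^ 2)
            - κ * (3 * lam * (b * (b ^ 2 + (1 + lam * a) * (-1 + lam * d)))) := by
        simp only [nf]
        rw [hκ]
        linear_combination ((4 + 9 * κ') * lam * b ^ 3) * hlam
      rw [e]
      exact dvd_sub (dvd_add (dvd_add h1 (h2.mul_left _)) (dvd_mul_right _ _)) (h4.mul_left _)
    obtain ⟨y, hy⟩ := h5
    exact ⟨y, by linear_combination hy + (1 + 3 * y) * hlam⟩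
  · have h1 := cube_one hlam hres b
    have h2 := cube_neg_one hlam hres d
    have h3 : lam ∣ a * (a ^ 2 + κ * ((1 + lam * b) * (-1 + lam * d))) := by
      have e : a * (a ^ 2 + κ * ((1 + lam * b) * (-1 + lam * d)))
          = (a ^ 3 - a) + lam * (a * (κ * (d - b + lam * b * d)) + lam * (1 + 3 * κ') * a) := by
        rw [hκ]
        linear_combination (-(1 + 3 * κ') * a) * hlam
      rw [e]
      exact dvd_add (fermat3 hlam hres a) (dvd_mul_right _ _)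
    have h4 := nine_of_lam hlam h3
    have h5 : (9 : R) ∣ nf κ (lam * a) (1 + lam * b) (-1 + lam * d) + 3 := by
      have e : nf κ (lam * a) (1 + lam * b) (-1 + lam * d) + 3
          = κ * ((1 + lam * b) ^ 3 - 1) + κ ^ 2 * ((-1 + lam * d) ^ 3 + 1)
            + 9 * (-1 - 7 * κ' - 9 * κ' ^ 2)
            - (3 * lam * (a * (a ^ 2 + κ * ((1 + lam * b) * (-1 + lam * d))))) := by
        simp only [nf]
        rw [hκ]
        linear_combination (lam * a ^ 3) * hlam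
      rw [e]
      exact dvd_sub (dvd_add (dvd_add (h1.mul_left _) (h2.mul_left _)) (dvd_mul_right _ _)) h4
    obtain ⟨y, hy⟩ := h5
    exact ⟨-y, by linear_combination hy - (1 - 3 * y) * hlam⟩

/-- The norm form in shifted coordinates. -/
theorem nf_shift (κ c X Y Z : R) (hκ : κ = 1 + 3 * c) :
    nf κ (X - Y + Z) (Y - 2 * Z) Z = X ^ 3 - 3 * X ^ 2 * Y + 3 * X ^ 2 * Z + 3 * X * Y ^ 2
      - (9 + 9 * c) * X * Y * Z + (9 + 18 * c) * X * Z ^ 2 + 3 * c * Y ^ 3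
      - 9 * c * Y ^ 2 * Z + 9 * c * Y * Z ^ 2 + 9 * c ^ 2 * Z ^ 3 := by
  rw [hκ]
  simp only [nf]
  ring

theorem sq_one (u : R) : lam ∣ (1 + lam * u) ^ 2 - 1 := ⟨2 * u + lam * u ^ 2, by ring⟩

/-- The main congruence: three equal residues. -/
theorem equal_ABD (hlam : lam ^ 2 = -3)
    (hres : ∀ x : R, ∃ y, x = lam * y ∨ x = 1 + lam * y ∨ x = -1 + lam * y) (κ' a b d : R) :
    ∃ (j : ℕ) (s y : R), (s = 1 ∨ s = -1) ∧
      nf (4 + 9 * κ') (1 + lam * a) (1 + lam * b) (1 + lam * d) = s * (lam ^ j * (1 + 3 * y)) := by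
  set c : R := 1 + 3 * κ' with hc
  set Z : R := 1 + lam * d with hZ
  set X1 : R := a + b + d - lam with hX1
  set Y1 : R := b + 2 * d - lam with hY1
  have hA : 1 + lam * a = lam * X1 - lam * Y1 + Z := by rw [hX1, hY1, hZ]; ring
  have hB : 1 + lam * b = lam * Y1 - 2 * Z := by
    rw [hY1, hZ]
    linear_combination hlam
  have hN : nf (4 + 9 * κ') (1 + lam * a) (1 + lam * b) Z
      = -3 * lam * X1 ^ 3 + 9 * lam * X1 ^ 2 * Y1 - 9 * X1 ^ 2 * Z - 9 * lam * X1 * Y1 ^ 2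
        + 27 * (1 + c) * X1 * Y1 * Z + 9 * (1 + 2 * c) * lam * X1 * Z ^ 2
        - 9 * c * lam * Y1 ^ 3 + 27 * c * Y1 ^ 2 * Z + 9 * c * lam * Y1 * Z ^ 2
        + 9 * c ^ 2 * Z ^ 3 := by
    rw [hA, hB, nf_shift (4 + 9 * κ') c (lam * X1) (lam * Y1) Z (by rw [hc]; ring)]
    linear_combination (lam * X1 ^ 3 - 3 * lam * X1 ^ 2 * Y1 + 3 * X1 ^ 2 * Z
      + 3 * lam * X1 * Y1 ^ 2 - (9 + 9 * c) * X1 * Y1 * Z + 3 * c * lam * Y1 ^ 3
      - 9 * c * Y1 ^ 2 * Z) * hlam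
  have hZ3 : 9 ∣ Z ^ 3 - 1 := cube_one hlam hres d
  have hZ2 : lam ∣ Z ^ 2 - 1 := sq_one d
  have hcc : (3 : R) ∣ c ^ 2 - 1 := ⟨2 * κ' + 3 * κ' ^ 2, by rw [hc]; ring⟩
  obtain ⟨x, hx | hx | hx⟩ := hres X1
  · -- `X1 = lam x`
    have key : (27 : R) ∣ nf (4 + 9 * κ') (1 + lam * a) (1 + lam * b) Z - 9 := by
      obtain ⟨z3, hz3⟩ := hZ3
      obtain ⟨cc, hcc'⟩ := hcc
      have hy : lam ∣ Y1 ^ 3 - Y1 * Z ^ 2 := by
        have e : Y1 ^ 3 - Y1 * Z ^ 2 = (Y1 ^ 3 - Y1) - Y1 * (Z ^ 2 - 1) := by ring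
        rw [e]
        exact dvd_sub (fermat3 hlam hres Y1) (hZ2.mul_left _)
      obtain ⟨yy, hyy⟩ := hy
      refine ⟨-x ^ 3 - lam * x ^ 2 * Y1 + x ^ 2 * Z + x * Y1 ^ 2 + (1 + c) * lam * x * Y1 * Z
        - (1 + 2 * c) * x * Z ^ 2 + c * Y1 ^ 2 * Z + c * yy + (c ^ 2 * 3 * z3 + cc), ?_⟩
      rw [hN, hx]
      linear_combination (-3 * x ^ 3 * (lam ^ 2 - 3) + 9 * lam * x ^ 2 * Y1 - 9 * x ^ 2 * Z
        - 9 * x * Y1 ^ 2 + 9 * (1 + 2 * c) * x * Z ^ 2 - 9 * c * yy) * hlam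
        - 9 * c * lam * hyy + 9 * c ^ 2 * hz3 + 9 * hcc'
    obtain ⟨y, hy⟩ := key
    exact ⟨4, 1, y, Or.inl rfl, by linear_combination hy - (1 + 3 * y) * (lam ^ 2 - 3) * hlam⟩
  · have key : (9 * lam : R) ∣ nf (4 + 9 * κ') (1 + lam * a) (1 + lam * b) Z + 3 * lam := by
      obtain ⟨u2, hu2⟩ := hZ2
      obtain ⟨cc, hcc'⟩ := hcc
      obtain ⟨w, hw⟩ : (9 : R) ∣ X1 ^ 3 - 1 := by rw [hx]; exact cube_one hlam hres x
      obtain ⟨u1, hu1⟩ : lam ∣ X1 ^ 2 - 1 := by rw [hx]; exact sq_one x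
      refine ⟨-3 * w + X1 ^ 2 * Y1 - Z * (u1 - c ^ 2 * u2 + lam * cc) - X1 * Y1 ^ 2
        - lam * (1 + c) * X1 * Y1 * Z + (1 + 2 * c) * X1 * Z ^ 2 - c * Y1 ^ 3
        - lam * c * Y1 ^ 2 * Z + c * Y1 * Z ^ 2, ?_⟩
      rw [hN]
      linear_combination (-3 * lam) * hw - 9 * Z * hu1 + 9 * Z * c ^ 2 * hu2 + 9 * Z * hcc'
        + (9 * Z * cc + 9 * (1 + c) * X1 * Y1 * Z + 9 * c * Y1 ^ 2 * Z) * hlam
    obtain ⟨y, hy⟩ := key
    exact ⟨3, 1, -y, Or.inl rfl, by linear_combination hy - lam * (1 - 3 * y) * hlam⟩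
  · have key : (9 * lam : R) ∣ nf (4 + 9 * κ') (1 + lam * a) (1 + lam * b) Z - 3 * lam := by
      obtain ⟨u2, hu2⟩ := hZ2
      obtain ⟨cc, hcc'⟩ := hcc
      obtain ⟨w, hw⟩ : (9 : R) ∣ X1 ^ 3 + 1 := by rw [hx]; exact cube_neg_one hlam hres x
      obtain ⟨u1, hu1⟩ : lam ∣ X1 ^ 2 - 1 := by
        rw [hx]; exact ⟨-2 * x + lam * x ^ 2, by ring⟩
      refine ⟨-3 * w + X1 ^ 2 * Y1 - Z * (u1 - c ^ 2 * u2 + lam * cc) - X1 * Y1 ^ 2
        - lam * (1 + c) * X1 * Y1 * Z + (1 + 2 * c) * X1 * Z ^ 2 - c * Y1 ^ 3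
        - lam * c * Y1 ^ 2 * Z + c * Y1 * Z ^ 2, ?_⟩
      rw [hN]
      linear_combination (-3 * lam) * hw - 9 * Z * hu1 + 9 * Z * c ^ 2 * hu2 + 9 * Z * hcc'
        + (9 * Z * cc + 9 * (1 + c) * X1 * Y1 * Z + 9 * c * Y1 ^ 2 * Z) * hlam
    obtain ⟨y, hy⟩ := key
    exact ⟨3, -1, y, Or.inr rfl, by linear_combination hy + lam * (1 + 3 * y) * hlam⟩

/-- Reduction modulo three. -/
theorem mod_three (hlam : lam ^ 2 = -3)
    (hres : ∀ x : R, ∃ y, x = lam * y ∨ x = 1 + lam * y ∨ x = -1 + lam * y) (x : R) :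
    ∃ r : R, (r = 0 ∨ r = 1 ∨ r = -1) ∧ lam ∣ x - r ∧ (3 : R) ∣ x ^ 3 - r := by
  obtain ⟨y, h | h | h⟩ := hres x
  · refine ⟨0, Or.inl rfl, ⟨y, by rw [h]; ring⟩, ⟨-(lam * y ^ 3), ?_⟩⟩
    rw [h]
    linear_combination (lam * y ^ 3) * hlam
  · refine ⟨1, Or.inr (Or.inl rfl), ⟨y, by rw [h]; ring⟩, ?_⟩
    have := cube_one hlam hres y
    rw [← h] at this
    exact dvd_trans ⟨3, by norm_num⟩ this
  · refine ⟨-1, Or.inr (Or.inr rfl), ⟨y, by rw [h]; ring⟩, ?_⟩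
    have := cube_neg_one hlam hres y
    rw [← h] at this
    rw [sub_neg_eq_add]
    exact dvd_trans ⟨3, by norm_num⟩ this

/-- Values of the norm form with parameter `4 + 9 κ'`. -/
theorem ring_three (hlam : lam ^ 2 = -3)
    (hres : ∀ x : R, ∃ y, x = lam * y ∨ x = 1 + lam * y ∨ x = -1 + lam * y) (κ' A B D : R)
    (hne : ¬ (lam ∣ A ∧ lam ∣ B ∧ lam ∣ D)) :
    ∃ (j : ℕ) (s y : R), (s = 1 ∨ s = -1) ∧
      nf (4 + 9 * κ') A B D = s * (lam ^ j * (1 + 3 * y)) := by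
  have hneg : nf (4 + 9 * κ') A B D = - nf (4 + 9 * κ') (-A) (-B) (-D) := by
    simp only [nf]; ring
  have hsum : ∀ r s w : R, (3 : R) ∣ A ^ 3 - r → (3 : R) ∣ B ^ 3 - s → (3 : R) ∣ D ^ 3 - w →
      (3 : R) ∣ nf (4 + 9 * κ') A B D - (r + s + w) := by
    rintro r s w ⟨a, ha⟩ ⟨b, hb⟩ ⟨d, hd⟩
    refine ⟨a + (4 + 9 * κ') * b + (4 + 9 * κ') ^ 2 * d + (1 + 3 * κ') * s
      + (5 + 24 * κ' + 27 * κ' ^ 2) * w - (4 + 9 * κ') * A * B * D, ?_⟩
    simp only [nf]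
    linear_combination ha + (4 + 9 * κ') * hb + (4 + 9 * κ') ^ 2 * hd
  have fin1 : (3 : R) ∣ nf (4 + 9 * κ') A B D - 1 → ∃ (j : ℕ) (s y : R), (s = 1 ∨ s = -1) ∧
      nf (4 + 9 * κ') A B D = s * (lam ^ j * (1 + 3 * y)) := by
    rintro ⟨y, hy⟩
    exact ⟨0, 1, y, Or.inl rfl, by linear_combination hy⟩
  have fin2 : (3 : R) ∣ nf (4 + 9 * κ') A B D + 1 → ∃ (j : ℕ) (s y : R), (s = 1 ∨ s = -1) ∧
      nf (4 + 9 * κ') A B D = s * (lam ^ j * (1 + 3 * y)) := by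
    rintro ⟨y, hy⟩
    exact ⟨0, -1, -y, Or.inr rfl, by linear_combination hy⟩
  obtain ⟨r, hr, hrA, hrA3⟩ := mod_three hlam hres A
  obtain ⟨s, hs, hsB, hsB3⟩ := mod_three hlam hres B
  obtain ⟨w, hw, hwD, hwD3⟩ := mod_three hlam hres D
  have h := hsum r s w hrA3 hsB3 hwD3
  have h3 : (3 : R) ∣ 3 := dvd_refl _
  rcases hr with rfl | rfl | rfl <;> rcases hs with rfl | rfl | rfl <;>
    rcases hw with rfl | rfl | rfl
  · -- 0 0 0
    rw [sub_zero] at hrA hsB hwD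
    exact absurd ⟨hrA, hsB, hwD⟩ hne
  · exact fin1 (by simpa using h)
  · exact fin2 (by simpa using h)
  · exact fin1 (by simpa using h)
  · -- 0 1 1
    refine fin2 ?_
    have e : nf (4 + 9 * κ') A B D + 1 = (nf (4 + 9 * κ') A B D - (0 + 1 + 1)) + 3 := by ring
    rw [e]; exact dvd_add h h3
  · -- 0 1 -1
    obtain ⟨a, ha⟩ := hrA
    obtain ⟨b, hb⟩ := hsB
    obtain ⟨d, hd⟩ := hwD
    obtain ⟨y, hy⟩ := (opp_ABD hlam hres κ' a b d).2.2
    have eA : A = lam * a := by linear_combination ha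
    have eB : B = 1 + lam * b := by linear_combination hb
    have eD : D = -1 + lam * d := by linear_combination hd
    exact ⟨2, 1, y, Or.inl rfl, by rw [eA, eB, eD, hy]; ring⟩
  · exact fin2 (by simpa using h)
  · -- 0 -1 1
    obtain ⟨a, ha⟩ := hrA
    obtain ⟨b, hb⟩ := hsB
    obtain ⟨d, hd⟩ := hwD
    obtain ⟨y, hy⟩ := (opp_ABD hlam hres κ' (-a) (-b) (-d)).2.2
    have eA : -A = lam * (-a) := by linear_combination (-1) * ha
    have eB : -B = 1 + lam * (-b) := by linear_combination (-1) * hb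
    have eD : -D = -1 + lam * (-d) := by linear_combination (-1) * hd
    exact ⟨2, -1, y, Or.inr rfl, by rw [hneg, eA, eB, eD, hy]; ring⟩
  · -- 0 -1 -1
    refine fin1 ?_
    have e : nf (4 + 9 * κ') A B D - 1 = (nf (4 + 9 * κ') A B D - (0 + -1 + -1)) - 3 := by ring
    rw [e]; exact dvd_sub h h3
  · exact fin1 (by simpa using h)
  · -- 1 0 1
    refine fin2 ?_
    have e : nf (4 + 9 * κ') A B D + 1 = (nf (4 + 9 * κ') A B D - (1 + 0 + 1)) + 3 := by ring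
    rw [e]; exact dvd_add h h3
  · -- 1 0 -1
    obtain ⟨a, ha⟩ := hrA
    obtain ⟨b, hb⟩ := hsB
    obtain ⟨d, hd⟩ := hwD
    obtain ⟨y, hy⟩ := (opp_ABD hlam hres κ' a b d).2.1
    have eA : A = 1 + lam * a := by linear_combination ha
    have eB : B = lam * b := by linear_combination hb
    have eD : D = -1 + lam * d := by linear_combination hd
    exact ⟨2, -1, y, Or.inr rfl, by rw [eA, eB, eD, hy]; ring⟩
  · -- 1 1 0
    refine fin2 ?_
    have e : nf (4 + 9 * κ') A B D + 1 = (nf (4 + 9 * κ') A B D - (1 + 1 + 0)) + 3 := by ring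
    rw [e]; exact dvd_add h h3
  · -- 1 1 1
    obtain ⟨a, ha⟩ := hrA
    obtain ⟨b, hb⟩ := hsB
    obtain ⟨d, hd⟩ := hwD
    have eA : A = 1 + lam * a := by linear_combination ha
    have eB : B = 1 + lam * b := by linear_combination hb
    have eD : D = 1 + lam * d := by linear_combination hd
    rw [eA, eB, eD]
    exact equal_ABD hlam hres κ' a b d
  · -- 1 1 -1
    refine fin1 ?_
    have e : nf (4 + 9 * κ') A B D - 1 = nf (4 + 9 * κ') A B D - (1 + 1 + -1) := by ring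
    rw [e]; exact h
  · -- 1 -1 0
    obtain ⟨a, ha⟩ := hrA
    obtain ⟨b, hb⟩ := hsB
    obtain ⟨d, hd⟩ := hwD
    obtain ⟨y, hy⟩ := (opp_ABD hlam hres κ' a b d).1
    have eA : A = 1 + lam * a := by linear_combination ha
    have eB : B = -1 + lam * b := by linear_combination hb
    have eD : D = lam * d := by linear_combination hd
    exact ⟨2, 1, y, Or.inl rfl, by rw [eA, eB, eD, hy]; ring⟩
  · -- 1 -1 1
    refine fin1 ?_
    have e : nf (4 + 9 * κ') A B D - 1 = nf (4 + 9 * κ') A B D - (1 + -1 + 1) := by ring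
    rw [e]; exact h
  · -- 1 -1 -1
    refine fin2 ?_
    have e : nf (4 + 9 * κ') A B D + 1 = nf (4 + 9 * κ') A B D - (1 + -1 + -1) := by ring
    rw [e]; exact h
  · exact fin2 (by simpa using h)
  · -- -1 0 1
    obtain ⟨a, ha⟩ := hrA
    obtain ⟨b, hb⟩ := hsB
    obtain ⟨d, hd⟩ := hwD
    obtain ⟨y, hy⟩ := (opp_ABD hlam hres κ' (-a) (-b) (-d)).2.1
    have eA : -A = 1 + lam * (-a) := by linear_combination (-1) * ha
    have eB : -B = lam * (-b) := by linear_combination (-1) * hb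
    have eD : -D = -1 + lam * (-d) := by linear_combination (-1) * hd
    exact ⟨2, 1, y, Or.inl rfl, by rw [hneg, eA, eB, eD, hy]; ring⟩
  · -- -1 0 -1
    refine fin1 ?_
    have e : nf (4 + 9 * κ') A B D - 1 = (nf (4 + 9 * κ') A B D - (-1 + 0 + -1)) - 3 := by ring
    rw [e]; exact dvd_sub h h3
  · -- -1 1 0
    obtain ⟨a, ha⟩ := hrA
    obtain ⟨b, hb⟩ := hsB
    obtain ⟨d, hd⟩ := hwD
    obtain ⟨y, hy⟩ := (opp_ABD hlam hres κ' (-a) (-b) (-d)).1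
    have eA : -A = 1 + lam * (-a) := by linear_combination (-1) * ha
    have eB : -B = -1 + lam * (-b) := by linear_combination (-1) * hb
    have eD : -D = lam * (-d) := by linear_combination (-1) * hd
    exact ⟨2, -1, y, Or.inr rfl, by rw [hneg, eA, eB, eD, hy]; ring⟩
  · -- -1 1 1
    refine fin1 ?_
    have e : nf (4 + 9 * κ') A B D - 1 = nf (4 + 9 * κ') A B D - (-1 + 1 + 1) := by ring
    rw [e]; exact h
  · -- -1 1 -1
    refine fin2 ?_
    have e : nf (4 + 9 * κ') A B D + 1 = nf (4 + 9 * κ') A B D - (-1 + 1 + -1) := by ring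
    rw [e]; exact h
  · -- -1 -1 0
    refine fin1 ?_
    have e : nf (4 + 9 * κ') A B D - 1 = (nf (4 + 9 * κ') A B D - (-1 + -1 + 0)) - 3 := by ring
    rw [e]; exact dvd_sub h h3
  · -- -1 -1 1
    refine fin2 ?_
    have e : nf (4 + 9 * κ') A B D + 1 = nf (4 + 9 * κ') A B D - (-1 + -1 + 1) := by ring
    rw [e]; exact h
  · -- -1 -1 -1
    obtain ⟨a, ha⟩ := hrA
    obtain ⟨b, hb⟩ := hsB
    obtain ⟨d, hd⟩ := hwD
    have eA : -A = 1 + lam * (-a) := by linear_combination (-1) * ha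
    have eB : -B = 1 + lam * (-b) := by linear_combination (-1) * hb
    have eD : -D = 1 + lam * (-d) := by linear_combination (-1) * hd
    obtain ⟨j, s, y, hs, hy⟩ := equal_ABD hlam hres κ' (-a) (-b) (-d)
    refine ⟨j, -s, y, ?_, ?_⟩
    · rcases hs with rfl | rfl
      · exact Or.inr rfl
      · exact Or.inl (neg_neg 1)
    · rw [hneg, eA, eB, eD, hy]; ring

end three

end NG
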