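import Pool.Agent.NG.Core
import Pool.Agent.NG.Ring

/-!
The quadratic extension of `ℚ_[p]` by a cube root of unity and its integral elements
(MP_1b7df1_nt, helper56).
-/

namespace NG

variable (p : ℕ) [hp : Fact p.Prime]

/-- `ℚ_[p](w)` with `w ^ 2 = -1 - w`. -/
abbrev EK := QuadraticAlgebra ℚ_[p] (-1) (-1)

/-- `ℤ_[p][w]` with `w ^ 2 = -1 - w`. -/
abbrev ER := QuadraticAlgebra ℤ_[p] (-1) (-1)

/-- The inclusion of the integral elements. -/
def iota : ER p →+* EK p where
  toFun x := ⟨x.re, x.im⟩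
  map_one' := by ext <;> simp [QuadraticAlgebra.re_one, QuadraticAlgebra.im_one]
  map_mul' x y := by ext <;> simp
  map_zero' := by ext <;> simp
  map_add' x y := by ext <;> simp

variable {p}

theorem iota_re (x : ER p) : (iota p x).re = (x.re : ℚ_[p]) := rfl
theorem iota_im (x : ER p) : (iota p x).im = (x.im : ℚ_[p]) := rfl

theorem iota_injective : Function.Injective (iota p) := by
  intro x y h
  have h1 := congrArg QuadraticAlgebra.re h
  have h2 := congrArg QuadraticAlgebra.im h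
  rw [iota_re, iota_re] at h1
  rw [iota_im, iota_im] at h2
  ext
  · exact PadicInt.ext h1
  · exact PadicInt.ext h2

theorem iota_int (x : ℤ_[p]) : iota p (algebraMap _ _ x) = algebraMap ℚ_[p] (EK p) (x : ℚ_[p]) := by
  ext
  · simp [iota_re]
  · simp [iota_im]

/-- Scaling a family to integral elements, not all divisible by `p`. -/
theorem scale_fin {n : ℕ} (v : Fin n → ℚ_[p]) (hv : ∃ i, v i ≠ 0) :
    ∃ (c : ℚ_[p]) (u : Fin n → ℤ_[p]), c ≠ 0 ∧ (∀ i, v i = c * (u i : ℚ_[p])) ∧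
      ∃ i, u i = 1 := by
  obtain ⟨j, hj⟩ := hv
  haveI : Nonempty (Fin n) := ⟨j⟩
  obtain ⟨i0, hi0⟩ := Finite.exists_max (fun i => ‖v i‖)
  have hc : v i0 ≠ 0 := by
    intro h0
    have := hi0 j
    rw [h0, norm_zero] at this
    exact hj (norm_le_zero_iff.mp this)
  refine ⟨v i0, fun i => ⟨v i / v i0, ?_⟩, hc, ?_, i0, ?_⟩
  · rw [norm_div]
    exact div_le_one_of_le₀ (hi0 i) (norm_nonneg _)
  · intro i
    change v i = v i0 * (v i / v i0)
    field_simp
  · apply Subtype.ext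
    change v i0 / v i0 = 1
    exact div_self hc

theorem not_dvd_one : ¬ ((p : ℤ_[p]) ∣ 1) := by
  intro h
  rw [← PadicInt.norm_lt_one_iff_dvd, norm_one] at h
  exact lt_irrefl _ h

theorem scale3 (A B D : EK p) (hne : ¬ (A = 0 ∧ B = 0 ∧ D = 0)) :
    ∃ (c : ℚ_[p]) (A' B' D' : ER p), c ≠ 0 ∧ A = algebraMap _ _ c * iota p A' ∧
      B = algebraMap _ _ c * iota p B' ∧ D = algebraMap _ _ c * iota p D' ∧
      ¬ ((∃ y, A' = p * y) ∧ (∃ y, B' = p * y) ∧ (∃ y, D' = p * y)) := by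
  obtain ⟨c, u, hc, hu, i, hi⟩ := scale_fin ![A.re, A.im, B.re, B.im, D.re, D.im] (by
    by_contra hcon
    simp only [not_exists, not_not] at hcon
    apply hne
    refine ⟨?_, ?_, ?_⟩
    · ext
      · exact hcon 0
      · exact hcon 1
    · ext
      · exact hcon 2
      · exact hcon 3
    · ext
      · exact hcon 4
      · exact hcon 5)
  refine ⟨c, ⟨u 0, u 1⟩, ⟨u 2, u 3⟩, ⟨u 4, u 5⟩, hc, ?_, ?_, ?_, ?_⟩
  · ext
    · simpa [iota_re, iota_im] using hu 0
    · simpa [iota_re, iota_im] using hu 1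
  · ext
    · simpa [iota_re, iota_im] using hu 2
    · simpa [iota_re, iota_im] using hu 3
  · ext
    · simpa [iota_re, iota_im] using hu 4
    · simpa [iota_re, iota_im] using hu 5
  · rintro ⟨⟨a, ha⟩, ⟨b, hb⟩, ⟨d, hd⟩⟩
    have key : ∀ j, (p : ℤ_[p]) ∣ u j := by
      intro j
      have ha1 := congrArg QuadraticAlgebra.re ha
      have ha2 := congrArg QuadraticAlgebra.im ha
      have hb1 := congrArg QuadraticAlgebra.re hb
      have hb2 := congrArg QuadraticAlgebra.im hb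
      have hd1 := congrArg QuadraticAlgebra.re hd
      have hd2 := congrArg QuadraticAlgebra.im hd
      simp only [QuadraticAlgebra.re_mul, QuadraticAlgebra.im_mul, QuadraticAlgebra.re_natCast,
        QuadraticAlgebra.im_natCast, mul_zero, zero_mul, add_zero] at ha1 ha2 hb1 hb2 hd1 hd2
      fin_cases j
      · exact ⟨_, ha1⟩
      · exact ⟨_, ha2⟩
      · exact ⟨_, hb1⟩
      · exact ⟨_, hb2⟩
      · exact ⟨_, hd1⟩
      · exact ⟨_, hd2⟩
    have := key i
    rw [hi] at this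
    exact not_dvd_one this

/-- The group generated by `ℚ_[p]ˣ`, `lam` and `1 + p ℤ_[p][w]`. -/
def Gp (lam : ER p) (α : EK p) : Prop :=
  ∃ (c : ℚ_[p]) (j : ℕ) (y : ER p), c ≠ 0 ∧ α = algebraMap _ _ c * iota p (lam ^ j * (1 + p * y))

theorem one_add_ne_zero (y : ER p) : (1 + (p : ER p) * y) ≠ 0 := by
  intro h
  have h1 := congrArg QuadraticAlgebra.re h
  simp only [QuadraticAlgebra.re_add, QuadraticAlgebra.re_mul, QuadraticAlgebra.re_natCast,
    QuadraticAlgebra.im_natCast, QuadraticAlgebra.re_zero, mul_zero, zero_mul, add_zero] at h1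
  rw [show (1 : ER p).re = 1 from rfl] at h1
  apply not_dvd_one (p := p)
  exact ⟨-y.re, by linear_combination h1⟩

theorem two_res (x : ℤ_[2]) : ∃ y, x = 2 * y ∨ x = 1 + 2 * y := by
  obtain ⟨n, hn, hx⟩ := PadicInt.exists_mem_range x
  rw [PadicInt.maximalIdeal_eq_span_p, Ideal.mem_span_singleton] at hx
  obtain ⟨y, hy⟩ := hx
  have : n = 0 ∨ n = 1 := by omega
  rcases this with rfl | rfl
  · exact ⟨y, Or.inl (by push_cast at hy; linear_combination hy)⟩
  · exact ⟨y, Or.inr (by push_cast at hy; linear_combination hy)⟩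

theorem three_res (x : ℤ_[3]) : ∃ y, x = 3 * y ∨ x = 1 + 3 * y ∨ x = -1 + 3 * y := by
  obtain ⟨n, hn, hx⟩ := PadicInt.exists_mem_range x
  rw [PadicInt.maximalIdeal_eq_span_p, Ideal.mem_span_singleton] at hx
  obtain ⟨y, hy⟩ := hx
  have : n = 0 ∨ n = 1 ∨ n = 2 := by omega
  rcases this with rfl | rfl | rfl
  · exact ⟨y, Or.inl (by push_cast at hy; linear_combination hy)⟩
  · exact ⟨y, Or.inr (Or.inl (by push_cast at hy; linear_combination hy))⟩
  · exact ⟨y + 1, Or.inr (Or.inr (by push_cast at hy; linear_combination hy))⟩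

theorem big_norm {r : ℚ_[p]} (h1 : r * (-1 - r) = 1) (hle : ¬ ‖r‖ ≤ 1) : False := by
  rw [not_le] at hle
  have h2 : ‖(-1 - r : ℚ_[p])‖ = ‖r‖ := by
    have h3 : ‖(-1 : ℚ_[p])‖ ≠ ‖(-r : ℚ_[p])‖ := by
      rw [norm_neg, norm_neg, norm_one]
      exact ne_of_lt hle
    rw [sub_eq_add_neg, Padic.add_eq_max_of_ne h3, norm_neg, norm_neg, norm_one]
    exact max_eq_right hle.le
  have h4 := congrArg norm h1
  rw [norm_mul, h2, norm_one] at h4
  nlinarith

instance fact_two : Fact (∀ r : ℚ_[2], r ^ 2 ≠ -1 + -1 * r) := by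
  refine ⟨fun r hr => ?_⟩
  by_cases hle : ‖r‖ ≤ 1
  · obtain ⟨R, rfl⟩ : ∃ R : ℤ_[2], (R : ℚ_[2]) = r := ⟨⟨r, hle⟩, rfl⟩
    have hR : R ^ 2 = -1 + -1 * R := by
      apply PadicInt.ext
      push_cast
      exact hr
    obtain ⟨y, hy | hy⟩ := two_res R
    · exact not_dvd_one (p := 2) ⟨-y - 2 * y ^ 2, by
        rw [hy] at hR; push_cast; linear_combination hR⟩
    · exact not_dvd_one (p := 2) ⟨-1 - 3 * y - 2 * y ^ 2, by
        rw [hy] at hR; push_cast; linear_combination hR⟩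
  · exact big_norm (by linear_combination (-1) * hr) hle

instance fact_three : Fact (∀ r : ℚ_[3], r ^ 2 ≠ -1 + -1 * r) := by
  refine ⟨fun r hr => ?_⟩
  by_cases hle : ‖r‖ ≤ 1
  · obtain ⟨R, rfl⟩ : ∃ R : ℤ_[3], (R : ℚ_[3]) = r := ⟨⟨r, hle⟩, rfl⟩
    have hR : R ^ 2 = -1 + -1 * R := by
      apply PadicInt.ext
      push_cast
      exact hr
    obtain ⟨y, hy | hy | hy⟩ := three_res R
    · exact not_dvd_one (p := 3) ⟨-y - 3 * y ^ 2, by
        rw [hy] at hR; push_cast; linear_combination hR⟩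
    · refine not_dvd_one (p := 3) ⟨-y - y ^ 2, ?_⟩
      rw [hy] at hR
      have h3 : (3 : ℤ_[3]) ≠ 0 := by
        simp
      apply mul_left_cancel₀ h3
      push_cast
      linear_combination hR
    · exact not_dvd_one (p := 3) ⟨y - 3 * y ^ 2, by
        rw [hy] at hR; push_cast; linear_combination hR⟩
  · exact big_norm (by linear_combination (-1) * hr) hle

/-- `w` as an integral element. -/
noncomputable def wR : ER p := ⟨0, 1⟩

/-- `w` as an element of the field. -/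
noncomputable def wK : EK p := ⟨0, 1⟩

theorem iota_wR : iota p wR = wK := by
  ext <;> simp [iota_re, iota_im, wR, wK]

theorem wR_eq : (wR : ER p) ^ 2 + wR + 1 = 0 := by
  rw [pow_two]
  ext <;> simp [wR, QuadraticAlgebra.re_one, QuadraticAlgebra.im_one]

theorem wK_eq : (wK : EK p) ^ 2 + wK + 1 = 0 := by
  have := congrArg (iota p) (wR_eq (p := p))
  simpa [iota_wR] using this

theorem lin_eq [Fact (∀ r : ℚ_[p], r ^ 2 ≠ -1 + -1 * r)] (x y : ℚ_[p]) : lin (wK : EK p) x y = ⟨x, y⟩ := by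
  ext <;> simp [lin, wK]

theorem lin_zero [Fact (∀ r : ℚ_[p], r ^ 2 ≠ -1 + -1 * r)] (x y : ℚ_[p]) (h : lin (wK : EK p) x y = 0) : x = 0 ∧ y = 0 := by
  rw [lin_eq] at h
  exact ⟨congrArg QuadraticAlgebra.re h, congrArg QuadraticAlgebra.im h⟩

/-- Cubes of integral elements which are not divisible by `p`. -/
def Cub (lam : ER p) : Prop := ∀ a : ER p, (∃ y, a = p * y) ∨
  ∃ (j : ℕ) (s y : ER p), (s = 1 ∨ s = -1) ∧ a ^ 3 = s * (lam ^ j * (1 + p * y))

theorem Gp_of_sign {lam : ER p} (c : ℚ_[p]) (hc : c ≠ 0) (j : ℕ) (s y : ER p)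
    (hs : s = 1 ∨ s = -1) :
    Gp lam (algebraMap _ _ c * iota p (s * (lam ^ j * (1 + p * y)))) := by
  rcases hs with rfl | rfl
  · exact ⟨c, j, y, hc, by rw [one_mul]⟩
  · refine ⟨-c, j, y, neg_ne_zero.mpr hc, ?_⟩
    rw [map_mul, map_neg, map_one, map_neg]
    ring

theorem grp_Gp [Fact (∀ r : ℚ_[p], r ^ 2 ≠ -1 + -1 * r)] {lam : ER p} (hlam : lam ≠ 0)
    (hcub : Cub lam) : Grp ℚ_[p] (Gp lam : EK p → Prop) := by
  refine ⟨?_, ?_, ?_, ?_⟩
  · rintro a ⟨c, j, y, hc, rfl⟩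
    refine mul_ne_zero ?_ ?_
    · rw [Ne, map_eq_zero]; exact hc
    · rw [map_mul, map_pow]
      refine mul_ne_zero (pow_ne_zero _ ?_) ?_
      · intro h
        exact hlam (iota_injective (by rw [h, map_zero]))
      · intro h
        exact one_add_ne_zero y (iota_injective (by rw [h, map_zero]))
  · rintro a b ⟨c, j, y, hc, rfl⟩ ⟨d, k, z, hd, rfl⟩
    refine ⟨c * d, j + k, y + z + p * y * z, mul_ne_zero hc hd, ?_⟩
    rw [map_mul, pow_add]
    simp only [map_mul, map_add, map_one, map_pow, map_natCast]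
    ring
  · intro a ha
    obtain ⟨c, A', B', D', hc, h1, h2, h3, h4⟩ := scale3 a 0 0 (fun h => ha h.1)
    have hcK : algebraMap ℚ_[p] (EK p) c ≠ 0 := by rw [Ne, map_eq_zero]; exact hc
    have hB : B' = 0 := by
      have : iota p B' = 0 := by
        rcases mul_eq_zero.mp h2.symm with h | h
        · exact absurd h hcK
        · exact h
      exact iota_injective (by rw [this, map_zero])
    have hD : D' = 0 := by
      have : iota p D' = 0 := by
        rcases mul_eq_zero.mp h3.symm with h | h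
        · exact absurd h hcK
        · exact h
      exact iota_injective (by rw [this, map_zero])
    rcases hcub A' with h | ⟨j, s, y, hs, h⟩
    · exact absurd ⟨h, ⟨0, by rw [hB, mul_zero]⟩, ⟨0, by rw [hD, mul_zero]⟩⟩ h4
    · have : a ^ 3 = algebraMap _ _ (c ^ 3) * iota p (s * (lam ^ j * (1 + p * y))) := by
        rw [← h, h1, mul_pow, map_pow, map_pow]
      rw [this]
      exact Gp_of_sign _ (pow_ne_zero 3 hc) j s y hs
  · intro a ha
    exact ⟨a, 0, 0, ha, by simp⟩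

end NG
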